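import Pool.Agent.Helper29.AG7.Tor

/-!
# AG section 7: D2 for virtual blades and eared triangles, D4
-/

set_option autoImplicit false
set_option linter.unusedSectionVars false
open Finset

namespace Pool.Agent.Helper41.AG7

open AG AG.Obj Pool.Agent.Helper29.AG7

variable {I : Type} [DecidableEq I] {S : Obj I} {pt : Sd I → Pt} {R : Finset I}
  {V : Sd I → Prop} {p q : Sd I × Sd I}

/-- D2 for virtual blades -/
theorem env_dv (hE : Env S pt R V) (hd : ∀ u, S.BladeAt pt u → V u → u.1 ∉ R) :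
    ∀ w, S.Vir pt w → w.1 ∈ R → ∃ q ∈ S.CP pt R V, w.1 ∈ S.pA pt q.1 q.2 := by
  classical
  intro w hw hwR
  by_contra hcon
  push Not at hcon
  have h1 := hE.adm_R.torso hE
  have h2 : w ∈ S.candT pt R V (S.kids pt R V) (fun q => S.pA pt q.1 q.2) := by
    rw [candT, mem_filter, mem_CandK]
    exact ⟨⟨hw, hwR, fun h => hd w hw.bladeAt h hwR⟩, fun q hq => hcon q (kids_sub hq)⟩
  have := card_pos.2 ⟨w, h2⟩
  omega

/-- D2 for eared triangles -/
theorem env_de (hE : Env S pt R V) :
    ∀ c, S.Eared c → c.1 ∈ R → ∃ q ∈ S.CP pt R V, c.1 ∈ S.pA pt q.1 q.2 := by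
  intro c hc hcR
  obtain ⟨p, hp, h⟩ := eared_in hE hc hcR
  exact ⟨p, hp, tor_sub h⟩

/-- D4 -/
theorem d4 (hE : Env S pt R V) : (S.CandK pt R V).card ≤ (X0 S pt R V).card := by
  classical
  have hB := hE.base
  -- the identity
  have h0 := hB.ident hE.shape
  -- two ear ends for each ear
  obtain ⟨t0, ht0⟩ := card_pos.1 (lt_of_lt_of_le Nat.zero_lt_two hB.two)
  have hF : S.Fam pt R V (∅ : Finset ℕ) (fun _ => ∅) (fun _ => (t0, 0)) :=
    ⟨fun i hi => absurd hi (notMem_empty i), fun i hi => absurd hi (notMem_empty i),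
      fun i hi => absurd hi (notMem_empty i), fun i hi => absurd hi (notMem_empty i),
      fun i hi => absurd hi (notMem_empty i), fun i hi => absurd hi (notMem_empty i),
      fun z hz hV => by obtain ⟨w, hw, he⟩ := hE.Vbl z hV; exact hz w hw he,
      fun i hi => absurd hi (notMem_empty i), fun i hi => absurd hi (notMem_empty i)⟩
  have h1 := hF.zr_le hB hE.shape.sub hE.shape.Vinv
  have h2 : S.earsT R (∅ : Finset ℕ) (fun _ => ∅) = S.EarsK R := by
    rw [earsT, filter_eq_self]
    exact fun c _ i hi => absurd hi (notMem_empty i)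
  rw [h2, sum_empty] at h1
  -- each pair outside `X0` has an ear in its torso
  have h3 : ((S.CP pt R V) \ (X0 S pt R V)).card ≤ (S.EarsK R).card := by
    have hch : ∀ p, ∃ c : Sd I, p ∈ (S.CP pt R V) \ (X0 S pt R V) → S.Eared c ∧ c.1 ∈ tor S pt p := by
      intro p
      by_cases hp : p ∈ (S.CP pt R V) \ (X0 S pt R V)
      · rw [mem_sdiff, mem_X0] at hp
        have : ∃ c : Sd I, S.Eared c ∧ c.1 ∈ tor S pt p := by
          by_contra hcon
          push Not at hcon
          exact hp.2 ⟨hp.1, hcon⟩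
        obtain ⟨c, hc⟩ := this
        exact ⟨c, fun _ => hc⟩
      · exact ⟨(t0, 0), fun h => absurd h hp⟩
    choose f hf using hch
    apply card_le_card_of_injOn f
    · intro p hp
      obtain ⟨h4, h5⟩ := hf p hp
      exact mem_EarsK.2 ⟨h4, hE.subA p (mem_sdiff.1 hp).1 (tor_sub h5)⟩
    · intro p hp q hq hpq
      by_contra hne
      have hp' := hf p hp
      have hq' := hf q hq
      have h6 := tor_disj hE (mem_sdiff.1 hp).1 (mem_sdiff.1 hq).1 hne
      rw [← hpq] at hq'
      exact (disjoint_left.1 h6) hp'.2 hq'.2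
  have h4 : X0 S pt R V ⊆ S.CP pt R V := fun p hp => (mem_X0.1 hp).1
  have h5 := card_sdiff_add_card_eq_card h4
  omega

end Pool.Agent.Helper41.AG7
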