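import Pool.Agent.Helper41.AG7.CandLe
import Pool.Agent.Helper41.AG7.D4
import Pool.Agent.Helper29.AG7.BillB2
import Pool.Agent.AG.Red.S12

/-!
# AG section 7: the closed case is impossible
-/

set_option autoImplicit false
set_option linter.unusedSectionVars false
open Finset

namespace Pool.Agent.Helper41.AG7

open AG AG.Obj Pool.Agent.Helper29.AG7

variable {I : Type} [DecidableEq I] {S : Obj I} {pt : Sd I → Pt} {R : Set Pt}

theorem s1_of (hC : Cex S pt R) : ∀ c a, S.Blade c → a.1 = c.1 → S.IsU pt a → S.Face (S.g a).1 := by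
  intro c a hc ha hU
  rcases eq_of_fst_eq ha with h | h | h
  · exact (hC.s1 (Or.inl (h ▸ hc)) hU).2
  · rw [h] at hU; exact absurd hc.2.2.1 hU.1
  · have e : rot a = c := by rw [h, rot_unrot]
    exact (hC.s1 (Or.inr (by rw [e]; exact hc)) hU).2

theorem s2_of (hC : Cex S pt R) : ∀ c, S.Blade c → S.PairAt pt c →
    S.Face (S.g c).1 ∨ S.Face (S.g (unrot c)).1 := by
  intro c hc hp
  exact (hC.s2 hc hp).imp (fun h => h.2) (fun h => h.2)

theorem rhyp_closed (hC : Cex S pt R) (hB : Base S pt) : RHyp S pt S.F where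
  sub := Subset.refl _
  lin := hB.lin
  b1 _ ha := hC.geo.b1 ha
  g1 _ _ ha hb he := hC.geo.g1 ha hb he
  sh _ _ h1 h2 h3 h4 := hC.geo.sh h1 h2 h3 h4
  three t ht := by
    rcases hB.types ht with h1 | ⟨c, h1, h2 | h2⟩
    · exact Or.inl h1
    · exact Or.inr (Or.inl ⟨c, h1, h2⟩)
    · exact Or.inr (Or.inr ⟨c, h1, h2⟩)
  s1 := s1_of hC
  s2 := s2_of hC
  outP c a b hc _ _ hab hout _ := by
    exfalso
    apply hout
    apply g_memF
    rcases hab with ⟨rfl, _⟩ | ⟨rfl, _⟩
    · exact hc.1
    · exact hc.2.1

/-- a trivial consecutive pair has its eared triangle in the torso -/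
theorem triv_not_X0 {V : Sd I → Prop} {p : Sd I × Sd I}
    (ht : S.Triv pt p.1 p.2) : p ∉ X0 S pt S.F V := by
  intro h
  obtain ⟨c, hc, hA⟩ := ht
  apply (mem_X0.1 h).2 c hc
  rw [tor, mem_torC, hA]
  refine ⟨mem_singleton_self _, fun q hq => ?_⟩
  exfalso
  obtain ⟨h1, h2, _⟩ := mem_CP.1 hq
  rw [mem_singleton] at h2
  exact h1.toPr.b.not_eared hc h2

open Classical in
theorem closed_false (hC : Cex S pt R) (hE : Env S pt S.F (fun _ => False))
    (ht : ∀ p ∈ S.CP pt S.F (fun _ => False), S.Triv pt p.1 p.2) : False := by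
  have hB := hE.base
  have H := rhyp_closed hC hB
  have hne : S.F.Nonempty := card_pos.1 (lt_of_lt_of_le Nat.zero_lt_two hB.two)
  obtain ⟨Ext, E⟩ := exists_extOf (X := S.F) hC.geo hB.lin (Subset.refl _) hne
  have hX0 : X0 S pt S.F (fun _ => False) = ∅ := by
    rw [eq_empty_iff_forall_notMem]
    intro p hp
    have h1 := (mem_X0.1 hp).1
    exact triv_not_X0 (ht p h1) hp
  have hcand : (S.CandK pt S.F (fun _ => False)).card = 0 := by
    have := d4 hE
    rw [hX0, card_empty] at this
    omega
  have hle := cand_le (V := fun _ => False) H (fun u _ h => absurd h id)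
    (fun a hg _ h => absurd (g_memF hg) h)
  have hSt : Sts S S.F = ∅ := by
    rw [Sts]
    have : S.bd S.F = ∅ := by
      rw [eq_empty_iff_forall_notMem]
      intro a ha
      exact (mem_bd.1 ha).2.2 (g_memF (mem_bd.1 ha).1)
    rw [this, image_empty]
  let B : Bil I (Finset (Sd I)) (Sd I) Pt (Sd I × Sd I) :=
    { H.reg with
      X0 := ∅
      Ext := Ext
      pos := pt
      vp := fun p => p.1
      tor := fun _ => ∅
      wide := fun _ => False
      a := fun _ => (hne.choose, 0)
      v := fun _ => (hne.choose, 0)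
      s := fun _ => hne.choose
      xw := fun d => d
      pe := pe S S.F
      a_inj := fun d hd => absurd (show d ∈ Sts S S.F from hd) (by rw [hSt]; exact notMem_empty d)
      v_inj := fun d hd => absurd (show d ∈ Sts S S.F from hd) (by rw [hSt]; exact notMem_empty d)
      a_ne_v := fun d hd => absurd (show d ∈ Sts S S.F from hd) (by rw [hSt]; exact notMem_empty d)
      xw_not := fun d hd => absurd (show d ∈ Sts S S.F from hd) (by rw [hSt]; exact notMem_empty d)
      pe_inj := pe_inj hB H
      pe_ne_vp := fun x _ p hp => absurd hp (notMem_empty p)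
      pe_ne_a := fun x _ d hd => absurd (show d ∈ Sts S S.F from hd) (by rw [hSt]; exact notMem_empty d)
      pe_ne_v := fun x _ d hd => absurd (show d ∈ Sts S S.F from hd) (by rw [hSt]; exact notMem_empty d)
      vp_ne_v := fun p hp => absurd hp (notMem_empty p)
      tor_disj := fun p hp => absurd hp (notMem_empty p)
      wide_ext := fun p hp => absurd hp (notMem_empty p)
      wide_inj := fun p hp => absurd hp (notMem_empty p)
      bill_a := fun p hp => absurd hp (notMem_empty p)
      bill_b := by
        intro x hx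
        rcases bill_b hE hC.geo H x hx with h | ⟨y, h1, h2, _⟩
        · exact Or.inl h
        · exact Or.inr ⟨y, h1, h2, fun p hp => absurd hp (notMem_empty p)⟩
      bill_c := by
        intro q hq
        left
        obtain ⟨c, hc, hcq⟩ := E.mem q hq
        refine ⟨(S.keep S.F).last c, ?_, by rw [pt_last hC.geo, hcq]⟩
        show (S.keep S.F).last c ∈ H.reg.zeros
        rw [mem_zeros]
        refine ⟨last_mem_vis (keep_linear H.lin S.F) (mem_sides.2 (by
          rw [keep_F S H.sub]; exact hc)), fun a ha hba hv => ?_⟩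
        have haF : a.1 ∈ S.F := S.memF a hba.1
        have hpa : pt a = q := by
          rw [← hcq, ← pt_last hC.geo S.F c, ← hv]
          exact hC.geo.pt_eqv (vz_eqv (X := S.F) hba.1)
        exact E.not_blk haF (g_memF hba.1) hba (by rw [hpa]; exact hq)
      bill_U := fun d hd => absurd (show d ∈ Sts S S.F from (mem_filter.1 hd).1)
        (by rw [hSt]; exact notMem_empty d)
      bill_P := fun d hd => absurd (show d ∈ Sts S S.F from (mem_filter.1 hd).1)
        (by rw [hSt]; exact notMem_empty d) }
  have h1 := B.final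
  have h2 : B.St.card = 0 := by show (Sts S S.F).card = 0; rw [hSt]; rfl
  have h3 : B.CU.card + B.CP.card ≤ 0 := by
    rw [← hcand]
    exact hle
  have h4 : B.Ext.card = Ext.card := rfl
  have h5 := E.three
  omega

end Pool.Agent.Helper41.AG7
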