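import Pool.Agent.Helper41.AG7.Open

/-!
# AG section 7: the bills (c), (Ub), (Pb) of the open region
-/

set_option autoImplicit false
set_option linter.unusedSectionVars false
open Finset

namespace Pool.Agent.Helper41.AG7

open AG AG.Obj Pool.Agent.Helper29.AG7

variable {I : Type} [DecidableEq I]

/-- extreme points of the region -/
structure ExtOf (S : Obj I) (pt : Sd I → Pt) (X : Finset I) (Ext : Finset Pt) : Prop where
  three : 3 ≤ Ext.card
  mem : ∀ q ∈ Ext, ∃ c : Sd I, c.1 ∈ X ∧ pt c = q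
  small : ∀ c : Sd I, c.1 ∈ X → pt c ∈ Ext → ∀ Y : Finset (Sd I),
    (∀ d ∈ Y, d.1 ∈ X ∧ (S.keep X).Eqv c d) → ∑ d ∈ Y, cang pt d < Real.pi

variable {S : Obj I} {pt : Sd I → Pt} {X : Finset I} {b b' : Sd I} {Ext : Finset Pt}

theorem exists_extOf (hg : S.Geo pt) (hl : S.Linear) (hX : X ⊆ S.F) (hne : X.Nonempty) :
    ∃ Ext, ExtOf S pt X Ext := by
  have hg' : (S.keep X).Geo pt := hg.mono (keep_le S X)
  obtain ⟨Ext, h1, h2⟩ := hg'.exists_ext (keep_linear hl X) (by rw [keep_F S hX]; exact hne)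
  have hs : ∀ c : Sd I, c ∈ (S.keep X).sides ↔ c.1 ∈ X := fun c => by rw [mem_sides, keep_F S hX]
  refine ⟨Ext, h1, fun q hq => ?_, fun c hc hq Y hY => ?_⟩
  · obtain ⟨⟨c, hc, hcq⟩, _⟩ := h2 q hq
    exact ⟨c, (hs c).1 hc, hcq⟩
  · exact (h2 _ hq).2 c ((hs c).2 hc) rfl Y (fun d hd => ⟨(hs d).2 (hY d hd).1, (hY d hd).2⟩)

/-- no inner diagonal is blocked at an extreme point -/
theorem ExtOf.not_blk (E : ExtOf S pt X Ext) {a : Sd I} (h1 : a.1 ∈ X) (h2 : (S.g a).1 ∈ X)
    (hb : S.Blk pt a) : pt a ∉ Ext := by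
  intro hq
  have h3 : a ≠ rot (S.g a) := fun h => S.ne a hb.1 (by rw [← rot_fst (S.g a), ← h])
  have hk : (S.keep X).g a = S.g a := by rw [keep_g, if_pos ⟨h1, h2⟩]
  have he : (S.keep X).Eqv a (rot (S.g a)) := by
    have := Eqv.of_glued (S := S.keep X) (a := a) (by rw [hk]; exact hb.1)
    rwa [hk] at this
  have h4 := E.small a h1 hq {a, rot (S.g a)} (by
    intro d hd
    rw [mem_insert, mem_singleton] at hd
    rcases hd with rfl | rfl
    · exact ⟨h1, Eqv.refl _ _⟩
    · exact ⟨h2, he⟩)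
  rw [sum_pair h3] at h4
  have h5 := hb.2
  linarith

/-- a fan with one corner -/
theorem last_eq_self {S' : Obj I} {w : Sd I} (hw : S'.g (unrot w) = unrot w) (hl : S'.Linear)
    {a : Sd I} (h : S'.last a = w) : a = w := by
  obtain ⟨n, hn⟩ := hl a
  rw [last_eq_of hn] at h
  clear hn
  induction n with
  | zero => exact h
  | succ n ih =>
    rw [Function.iterate_succ_apply'] at h
    obtain ⟨c, hc⟩ : ∃ c, c = S'.cw^[n] a := ⟨_, rfl⟩
    rw [← hc] at h ih
    by_cases hg : S'.g c = c
    · rw [cw_of_unglued hg] at h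
      exact ih h
    · rw [cw_of_glued hg] at h
      have h1 : S'.g c = unrot w := by rw [← h, unrot_rot]
      have h2 : S'.g (unrot w) = c := by rw [← h1, S'.invol]
      rw [hw] at h2
      rw [h1, h2] at hg
      exact absurd rfl hg

namespace Op

variable (O : Op S pt X b b')
include O

theorem stub_of_ext (E : ExtOf S pt X Ext) {a : Sd I} (h : a.1 ∈ X ∨ (S.g a).1 ∈ X)
    (hb : S.Blk pt a) (hq : pt a ∈ Ext) : a = b ∨ a = S.g b ∨ a = b' ∨ a = S.g b' :=
  O.stub_side h hb.1 (fun h1 => E.not_blk h1.1 h1.2 hb hq)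

theorem pt_vz {a : Sd I} (hg : S.g a ≠ a) : pt (vz S X a) = pt a :=
  (O.geo.pt_eqv (vz_eqv (X := X) hg)).symm

theorem v1_zero (h : S.Blade (rot b)) (hb : ¬ S.Blk pt b) : (S.keep X).last b ∈ O.H.reg.zeros := by
  rw [mem_zeros]
  refine ⟨by have := O.vD_mem (O.mem_St.2 (Or.inl rfl)); rwa [O.vD_b] at this, ?_⟩
  intro a ha hba hv
  have hu : S.g (unrot b) = unrot b := by
    have := h.2.2.1
    rwa [rot_rot] at this
  have hk : (S.keep X).g (unrot b) = unrot b := by rw [keep_g]; split_ifs <;> [exact hu; rfl]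
  rw [O.last_b] at hv
  by_cases h1 : a.1 ∈ X
  · rw [vz_in h1] at hv
    have := last_eq_self hk (keep_linear O.H.lin X) hv
    rw [this] at hba
    exact hb hba
  · rw [vz_out h1] at hv
    have h2 := last_eq_self hk (keep_linear O.H.lin X) hv
    have h3 : S.g a = unrot b := by rw [← h2, unrot_rot]
    have h4 : S.g (unrot b) = a := by rw [← h3, S.invol]
    rw [hu] at h4
    exact hba.1 (by rw [h3, h4])

theorem v2_zero (h : S.Blade b') (hb : ¬ S.Blk pt (S.g b')) :
    (S.keep X).last (rot b') ∈ O.H.reg.zeros := by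
  rw [mem_zeros]
  refine ⟨by have := O.vD_mem (O.mem_St.2 (Or.inr rfl)); rwa [O.vD_b'] at this, ?_⟩
  intro a ha hba hv
  have hu : S.g (rot b') = rot b' := h.2.2.1
  have hk : (S.keep X).g (rot b') = rot b' := by rw [keep_g]; split_ifs <;> [exact hu; rfl]
  have hk' : (S.keep X).g (unrot (rot b')) = unrot (rot b') := by rw [unrot_rot]; exact O.keep_b'
  rw [last_of_unglued hk] at hv
  by_cases h1 : a.1 ∈ X
  · rw [vz_in h1] at hv
    have := last_eq_self hk' (keep_linear O.H.lin X) hv
    rw [this] at hba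
    exact hba.1 hu
  · rw [vz_out h1] at hv
    have h2 := last_eq_self hk' (keep_linear O.H.lin X) hv
    have h3 : S.g a = b' := rot_injective h2
    have h4 : a = S.g b' := by rw [← h3, S.invol]
    rw [h4] at hba
    exact hb hba

/-- the stub `d_1` blocked at `a_1` -/
theorem bl_b (h : S.Blk pt (S.g b)) : O.H.reg.bl (dg S b) = some (aD S X b b' (dg S b)) := by
  have h1 := bl_of_blk (S := S) (X := X) O.H.b1 h
  rw [dg_g, O.vz_gb] at h1
  rw [O.aD_b]
  exact h1

theorem bl_b' (h : S.Blk pt b') : O.H.reg.bl (dg S b') = some (aD S X b b' (dg S b')) := by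
  have h1 := bl_of_blk (S := S) (X := X) O.H.b1 h
  rw [vz_in O.bX'.1] at h1
  rw [O.aD_b']
  exact h1

theorem mem_face_b (h : S.Face b.1) : b.1 ∈ O.H.reg.face := mem_faces.2 ⟨O.bX.1, h⟩
theorem mem_face_b' (h : S.Face b'.1) : b'.1 ∈ O.H.reg.face := mem_faces.2 ⟨O.bX'.1, h⟩

/-- (c) -/
theorem bill_c (E : ExtOf S pt X Ext) (q : Pt) (hq : q ∈ Ext) :
    (∃ w ∈ O.H.reg.zeros, pt w = q) ∨ ∃ d ∈ Sts S X, pt (aD S X b b' d) = q ∧
      O.H.reg.bl d = some (aD S X b b' d) ∧ ((sD S b b' d, d) ∈ O.H.reg.unused ∨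
        ((O.H.reg.A (aD S X b b' d)).card = 1 ∧ vD S X b b' d ∈ O.H.reg.zeros)) := by
  by_cases hqb : q = pt b
  · left
    by_cases h1 : S.Blk pt b
    · have h2 : ¬ S.Blk pt (S.g b') := fun h => O.nb ⟨h1, h⟩
      refine ⟨(S.keep X).last (rot b'), ?_, by rw [pt_last O.geo, O.ptv, hqb]⟩
      rw [mem_zeros]
      refine ⟨by have := O.vD_mem (O.mem_St.2 (Or.inr rfl)); rwa [O.vD_b'] at this, ?_⟩
      intro a ha hba hv
      have hpa : pt a = pt b := by
        rw [← O.pt_vz hba.1, hv, pt_last O.geo, O.ptv]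
      rcases O.stub_of_ext E ha hba (by rw [hpa, ← hqb]; exact hq) with rfl | rfl | rfl | rfl
      · rw [vz_in O.bX.1] at hv
        exact O.v_ne hv
      · exact O.pt_rb_ne (by rw [← O.geo.mat' O.bX.2.2]; exact hpa)
      · exact O.pt_b'_ne hpa
      · exact h2 hba
    · refine ⟨(S.keep X).last b, ?_, by rw [pt_last O.geo, hqb]⟩
      rw [mem_zeros]
      refine ⟨by have := O.vD_mem (O.mem_St.2 (Or.inl rfl)); rwa [O.vD_b] at this, ?_⟩
      intro a ha hba hv
      have hpa : pt a = pt b := by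
        rw [← O.pt_vz hba.1, hv, pt_last O.geo]
      rcases O.stub_of_ext E ha hba (by rw [hpa, ← hqb]; exact hq) with rfl | rfl | rfl | rfl
      · exact h1 hba
      · exact O.pt_rb_ne (by rw [← O.geo.mat' O.bX.2.2]; exact hpa)
      · exact O.pt_b'_ne hpa
      · rw [O.vz_gb'] at hv
        exact O.v_ne hv.symm
  · obtain ⟨c, hc, hcq⟩ := E.mem q hq
    by_cases hz : (S.keep X).last c ∈ O.H.reg.zeros
    · exact Or.inl ⟨_, hz, by rw [pt_last O.geo, hcq]⟩
    · right
      -- all sides blocked at this visit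
      have key : ∀ a, (a.1 ∈ X ∨ (S.g a).1 ∈ X) → S.Blk pt a → vz S X a = (S.keep X).last c →
          a = S.g b ∨ a = b' := by
        intro a ha hba hv
        have hpa : pt a = q := by rw [← O.pt_vz hba.1, hv, pt_last O.geo, hcq]
        rcases O.stub_of_ext E ha hba (by rw [hpa]; exact hq) with h | h | h | h
        · rw [h] at hpa; exact absurd hpa.symm hqb
        · exact Or.inl h
        · exact Or.inr h
        · rw [h, O.geo.mat' O.bX'.2.2, O.ptv] at hpa; exact absurd hpa.symm hqb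
      have hex : ∃ a, (a.1 ∈ X ∨ (S.g a).1 ∈ X) ∧ S.Blk pt a ∧ vz S X a = (S.keep X).last c := by
        by_contra hcon
        apply hz
        rw [mem_zeros]
        refine ⟨last_mem_vis (keep_linear O.H.lin X) (mem_sides.2 (by
          rw [keep_F S O.H.sub]; exact hc)), fun a ha hba hv => hcon ⟨a, ha, hba, hv⟩⟩
      obtain ⟨a, ha, hba, hv⟩ := hex
      rcases key a ha hba hv with rfl | rfl
      · have hw : aD S X b b' (dg S b) = (S.keep X).last c := by rw [O.aD_b, ← O.vz_gb, hv]
        have hcard : (O.H.reg.A (aD S X b b' (dg S b))).card = 1 := by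
          rw [card_eq_one]
          refine ⟨dg S b, ?_⟩
          ext d
          rw [mem_A' O.H, mem_singleton]
          constructor
          · rintro ⟨e, he1, rfl, he3, he4⟩
            rw [hw] at he4
            rcases key e he1 he3 he4 with h | h
            · rw [h, dg_g]
            · exfalso
              rw [h, vz_in O.bX'.1, ← hw, O.aD_b] at he4
              exact O.a_ne he4.symm
          · rintro rfl
            exact ⟨S.g b, ha, (dg_g S b).symm, hba, by rw [hv, hw]⟩
        refine ⟨dg S b, O.mem_St.2 (Or.inl rfl), ?_, O.bl_b hba, ?_⟩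
        · rw [hw, pt_last O.geo, hcq]
        · rcases O.f1 with hf | hf
          · left
            rw [O.sD_b]
            exact O.H.reg.unused_of_card_one (O.mem_face_b hf) (dg_mem_inc O.bX.2.2) (O.bl_b hba) hcard
          · right
            refine ⟨hcard, ?_⟩
            rw [O.vD_b]
            refine O.v1_zero hf (fun h => O.H.b1 b h hba)
      · have hw : aD S X b a (dg S a) = (S.keep X).last c := by rw [O.aD_b', ← vz_in O.bX'.1, hv]
        have hcard : (O.H.reg.A (aD S X b a (dg S a))).card = 1 := by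
          rw [card_eq_one]
          refine ⟨dg S a, ?_⟩
          ext d
          rw [mem_A' O.H, mem_singleton]
          constructor
          · rintro ⟨e, he1, rfl, he3, he4⟩
            rw [hw] at he4
            rcases key e he1 he3 he4 with h | h
            · exfalso
              rw [h, O.vz_gb, ← hw, O.aD_b'] at he4
              exact O.a_ne he4
            · rw [h]
          · rintro rfl
            exact ⟨a, ha, rfl, hba, by rw [hv, hw]⟩
        refine ⟨dg S a, O.mem_St.2 (Or.inr rfl), ?_, O.bl_b' hba, ?_⟩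
        · rw [hw, pt_last O.geo, hcq]
        · rcases O.f2 with hf | hf
          · left
            rw [O.sD_b']
            exact O.H.reg.unused_of_card_one (O.mem_face_b' hf) (dg_mem_inc O.bX'.2.2) (O.bl_b' hba) hcard
          · right
            refine ⟨hcard, ?_⟩
            rw [O.vD_b']
            exact O.v2_zero hf (fun h => O.H.b1 a hba h)

/-- (Pb) -/
theorem bill_P (d : Finset (Sd I)) (hd : d ∈ O.H.reg.Pbs) : vD S X b b' d ∈ O.H.reg.zeros ∧
    (O.H.reg.A (aD S X b b' d)).card = 2 := by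
  classical
  rw [Reg.Pbs, mem_filter] at hd
  obtain ⟨hst, t, ht, hdt, ⟨w, hwV, hw2, hwt⟩, _⟩ := hd
  have hA := O.H.reg.hosts_blade ht hw2 hwt
  have hdw : d ∈ O.H.reg.A w := by rw [hA]; exact hdt
  have htb := mem_blades.1 (show t ∈ blades S X from ht)
  rcases O.mem_St.1 hst with rfl | rfl
  · have htb1 : t = b.1 := by
      rcases (dg_mem_inc_iff O.bX.2.2).1 (show dg S b ∈ inc S t from hdt) with h | h
      · exact h
      · rw [h] at htb; exact absurd htb.1 O.bX.2.1
    have hbl : S.Blade (rot b) := by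
      rcases O.f1 with h | h
      · obtain ⟨c, hc1, hc2⟩ := htb.2
        rw [← htb1, ← hc1] at h
        exact absurd h (blade_not_face hc2)
      · exact h
    have hp := O.H.pair_of (w := w) hbl htb1.symm hA
    have hgb : S.Blk pt (S.g b) := by
      have := hp.2
      rwa [unrot_rot] at this
    have h1 := O.bl_b hgb
    have h2 := O.H.reg.A_unique h1 hdw
    rw [h2]
    refine ⟨?_, hw2⟩
    rw [O.vD_b]
    exact O.v1_zero hbl (fun h => O.H.b1 b h hgb)
  · have htb1 : t = b'.1 := by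
      rcases (dg_mem_inc_iff O.bX'.2.2).1 (show dg S b' ∈ inc S t from hdt) with h | h
      · exact h
      · rw [h] at htb; exact absurd htb.1 O.bX'.2.1
    have hbl : S.Blade b' := by
      rcases O.f2 with h | h
      · obtain ⟨c, hc1, hc2⟩ := htb.2
        rw [← htb1, ← hc1] at h
        exact absurd h (blade_not_face hc2)
      · exact h
    have hp := O.H.pair_of (w := w) hbl htb1.symm hA
    have h1 := O.bl_b' hp.1
    have h2 := O.H.reg.A_unique h1 hdw
    rw [h2]
    refine ⟨?_, hw2⟩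
    rw [O.vD_b']
    exact O.v2_zero hbl (O.H.b1 b' hp.1)

end Op

/-- alternative (x) of section 8 at the stub `b` (b-like side with the face `(g b).1`) -/
structure Alt1 (S : Obj I) (pt : Sd I → Pt) (X : Finset I) (b : Sd I) : Prop where
  face : S.Face b.1
  gl : S.g (unrot (S.g b)) ≠ unrot (S.g b)
  out : (S.g (unrot (S.g b))).1 ∉ X
  fin : S.g (unrot (S.g (unrot (S.g b)))) = unrot (S.g (unrot (S.g b)))
  ang : Real.pi ≤ cang pt (rot b) + cang pt (S.g b) + cang pt (S.g (unrot (S.g b)))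

/-- alternative (x) of section 8 at the stub `b'` -/
structure Alt2 (S : Obj I) (pt : Sd I → Pt) (X : Finset I) (b' : Sd I) : Prop where
  face : S.Face b'.1
  gl : S.g (rot (S.g b')) ≠ rot (S.g b')
  out : (S.g (rot (S.g b'))).1 ∉ X
  fin : S.g (rot (S.g (rot (S.g b')))) = rot (S.g (rot (S.g b')))
  ang : Real.pi ≤ cang pt b' + cang pt (rot (S.g b')) + cang pt (rot (S.g (rot (S.g b'))))

/-- two sets of corners at one point with large angles meet -/
theorem meet_of_big (hg : S.Geo pt) {p : Pt} {c1 c2 c3 a : Sd I} (h1 : c1.1 ∈ S.F) (h2 : c2.1 ∈ S.F)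
    (h3 : c3.1 ∈ S.F) (p1 : pt c1 = p) (p2 : pt c2 = p) (p3 : pt c3 = p) (n12 : c1 ≠ c2)
    (n13 : c1 ≠ c3) (n23 : c2 ≠ c3) (hs : Real.pi ≤ cang pt c1 + cang pt c2 + cang pt c3)
    (hb : S.Blk pt a) (pa : pt a = p) :
    (a = c1 ∨ a = c2 ∨ a = c3) ∨ (rot (S.g a) = c1 ∨ rot (S.g a) = c2 ∨ rot (S.g a) = c3) := by
  by_contra hcon
  push Not at hcon
  obtain ⟨⟨a1, a2, a3⟩, ⟨b1, b2, b3⟩⟩ := hcon
  have hra : a ≠ rot (S.g a) := fun h => S.ne a hb.1 (by rw [← rot_fst (S.g a), ← h])
  have haF : a.1 ∈ S.F := S.memF a hb.1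
  have hrF : (rot (S.g a)).1 ∈ S.F := g_memF hb.1
  have hpr : pt (rot (S.g a)) = p := by rw [hg.mat a hb.1, pa]
  have := hg.sum_lt (X := {a, rot (S.g a), c1, c2, c3}) (p := p) (by
    intro c hc
    simp only [mem_insert, mem_singleton] at hc
    rcases hc with rfl | rfl | rfl | rfl | rfl <;> assumption) (by
    intro c hc
    simp only [mem_insert, mem_singleton] at hc
    rcases hc with rfl | rfl | rfl | rfl | rfl <;> assumption)
  rw [sum_insert (by simp [hra, a1, a2, a3]), sum_insert (by simp [b1, b2, b3]),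
    sum_insert (by simp [n12, n13]), sum_pair n23] at this
  have h5 := hb.2
  linarith

namespace Op

variable (O : Op S pt X b b')
include O

/-- (Ub) -/
theorem bill_U' (u1 : S.IsU pt b → ¬ (∃ c, c.1 = (S.g b).1 ∧ S.Blade c) → Alt1 S pt X b)
    (u2 : S.IsU pt b' → ¬ (∃ c, c.1 = (S.g b').1 ∧ S.Blade c) → Alt2 S pt X b')
    (d : Finset (Sd I)) (hd : d ∈ O.H.reg.Ubs) : aD S X b b' d ∈ O.H.reg.zeros ∨
      ((O.H.reg.A (aD S X b b' d)).card = 1 ∧ (sD S b b' d, xD S b b' d) ∈ O.H.reg.unused ∧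
        O.H.reg.bl (xD S b b' d) = some (aD S X b b' d)) := by
  classical
  rw [Reg.Ubs, mem_filter] at hd
  obtain ⟨hst, hbl, hout⟩ := hd
  by_cases hz : aD S X b b' d ∈ O.H.reg.zeros
  · exact Or.inl hz
  right
  have hex : ∃ a, (a.1 ∈ X ∨ (S.g a).1 ∈ X) ∧ S.Blk pt a ∧ vz S X a = aD S X b b' d := by
    by_contra hcon
    apply hz
    rw [mem_zeros]
    exact ⟨O.aD_mem hst, fun a ha hba hv => hcon ⟨a, ha, hba, hv⟩⟩
  rcases O.mem_St.1 hst with rfl | rfl
  · have hU : S.IsU pt b := by
      have h1 := bl_none.1 (show bl S X (S.Blk pt) (dg S b) = none from hbl)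
      exact AG.Geo.isU_iff.2 ⟨O.bX.2.2, h1.1, h1.2⟩
    have A := u1 hU (fun ⟨c, hc1, hc2⟩ => hout ⟨b, O.bX.1, O.bX.2.1, O.bX.2.2, rfl, c, hc1, hc2⟩)
    have key : ∀ a, (a.1 ∈ X ∨ (S.g a).1 ∈ X) → S.Blk pt a →
        vz S X a = aD S X b b' (dg S b) → a = rot b := by
      intro a ha hba hv
      have pa : pt a = pt (rot b) := by rw [← O.pt_vz hba.1, hv, O.aD_b, pt_last O.geo]
      have g1 : (S.g b).1 ∈ S.F := g_memF O.bX.2.2
      have g2 : (S.g (unrot (S.g b))).1 ∈ S.F := g_memF A.gl
      have q1 : pt (S.g b) = pt (rot b) := O.geo.mat' O.bX.2.2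
      have q2 : pt (S.g (unrot (S.g b))) = pt (rot b) := by
        rw [O.geo.mat' A.gl, rot_unrot, q1]
      have n12 : rot b ≠ S.g b := fun h => S.ne b O.bX.2.2 (by rw [← h, rot_fst])
      have n13 : rot b ≠ S.g (unrot (S.g b)) := by
        intro h
        apply A.out
        rw [← h, rot_fst]; exact O.bX.1
      have n23 : S.g b ≠ S.g (unrot (S.g b)) := fun h => S.ne (unrot (S.g b)) A.gl (by
        rw [← h, unrot_fst])
      rcases meet_of_big O.geo (c1 := rot b) (c2 := S.g b) (c3 := S.g (unrot (S.g b)))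
        O.bF g1 g2 rfl q1 q2 n12 n13 n23 A.ang hba pa with (h | h | h) | (h | h | h)
      · exact h
      · rw [h] at hba; exact absurd hba hU.not_blk'
      · rw [h] at ha
        rcases ha with ha | ha
        · exact absurd ha A.out
        · rw [S.invol, unrot_fst] at ha; exact absurd ha O.bX.2.1
      · have h1 : a = S.g b := by rw [← rot_injective h, S.invol]
        rw [h1] at hba; exact absurd hba hU.not_blk'
      · have h1 : S.g a = unrot (S.g b) := by rw [← h, unrot_rot]
        have h2 : a = S.g (unrot (S.g b)) := by rw [← h1, S.invol]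
        rcases ha with ha | ha
        · rw [h2] at ha; exact absurd ha A.out
        · rw [h1, unrot_fst] at ha; exact absurd ha O.bX.2.1
      · have h1 : S.g a = unrot (S.g (unrot (S.g b))) := by rw [← h, unrot_rot]
        have h2 : S.g (unrot (S.g (unrot (S.g b)))) = a := by rw [← h1, S.invol]
        rw [A.fin] at h2
        exact absurd (by rw [h1, h2]) hba.1
    obtain ⟨a, ha, hba, hv⟩ := hex
    have hab := key a ha hba hv
    have hblx : O.H.reg.bl (dg S (rot b)) = some (aD S X b b' (dg S b)) := by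
      rw [← hv, hab]
      rw [hab] at hba
      exact bl_of_blk O.H.b1 hba
    have hcard : (O.H.reg.A (aD S X b b' (dg S b))).card = 1 := by
      rw [card_eq_one]
      refine ⟨dg S (rot b), ?_⟩
      ext d
      rw [mem_A' O.H, mem_singleton]
      constructor
      · rintro ⟨e, he1, rfl, he3, he4⟩
        rw [key e he1 he3 he4]
      · rintro rfl
        exact ⟨a, ha, by rw [hab], hba, hv⟩
    rw [O.sD_b, O.xD_b]
    refine ⟨hcard, O.H.reg.unused_of_card_one (O.mem_face_b A.face) ?_ hblx hcard, hblx⟩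
    have : S.g (rot b) ≠ rot b := face_glued (a := rot b) A.face
    exact dg_mem_inc (a := rot b) this
  · have hU : S.IsU pt b' := by
      have h1 := bl_none.1 (show bl S X (S.Blk pt) (dg S b') = none from hbl)
      exact AG.Geo.isU_iff.2 ⟨O.bX'.2.2, h1.1, h1.2⟩
    have A := u2 hU (fun ⟨c, hc1, hc2⟩ => hout ⟨b', O.bX'.1, O.bX'.2.1, O.bX'.2.2, rfl, c, hc1, hc2⟩)
    have key : ∀ a, (a.1 ∈ X ∨ (S.g a).1 ∈ X) → S.Blk pt a →
        vz S X a = aD S X b b' (dg S b') → a = S.g (unrot b') := by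
      intro a ha hba hv
      have pa : pt a = pt b' := by rw [← O.pt_vz hba.1, hv, O.aD_b', pt_last O.geo]
      have g1 : (rot (S.g b')).1 ∈ S.F := g_memF O.bX'.2.2
      have g2 : (rot (S.g (rot (S.g b')))).1 ∈ S.F := g_memF A.gl
      have q1 : pt (rot (S.g b')) = pt b' := O.geo.mat b' O.bX'.2.2
      have q2 : pt (rot (S.g (rot (S.g b')))) = pt b' := by
        rw [O.geo.mat _ A.gl, q1]
      have n12 : b' ≠ rot (S.g b') := fun h => S.ne b' O.bX'.2.2 (by rw [← rot_fst (S.g b'), ← h])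
      have n13 : b' ≠ rot (S.g (rot (S.g b'))) := by
        intro h
        apply A.out
        rw [← rot_fst (S.g (rot (S.g b'))), ← h]; exact O.bX'.1
      have n23 : rot (S.g b') ≠ rot (S.g (rot (S.g b'))) := fun h =>
        S.ne (rot (S.g b')) A.gl (by rw [← rot_injective h, rot_fst])
      rcases meet_of_big O.geo (c1 := b') (c2 := rot (S.g b')) (c3 := rot (S.g (rot (S.g b'))))
        O.bF' g1 g2 rfl q1 q2 n12 n13 n23 A.ang hba pa with (h | h | h) | (h | h | h)
      · rw [h] at hba; exact absurd hba hU.not_blk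
      · rw [h] at ha
        rcases ha with ha | ha
        · exact absurd ha O.bX'.2.1
        · exact absurd ha A.out
      · rw [h] at hba
        exact absurd A.fin hba.1
      · have h1 : S.g a = unrot b' := by rw [← h, unrot_rot]
        rw [← h1, S.invol]
      · have h1 : a = b' := by
          have := rot_injective h
          exact S.g_injective this
        rw [h1] at hba; exact absurd hba hU.not_blk
      · have h1 : a = rot (S.g b') := S.g_injective (rot_injective h)
        rw [h1] at ha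
        rcases ha with ha | ha
        · exact absurd ha O.bX'.2.1
        · exact absurd ha A.out
    obtain ⟨a, ha, hba, hv⟩ := hex
    have hab := key a ha hba hv
    have hdg : dg S a = dg S (unrot b') := by rw [hab, dg_g]
    have hblx : O.H.reg.bl (dg S (unrot b')) = some (aD S X b b' (dg S b')) := by
      rw [← hdg, ← hv]
      exact bl_of_blk O.H.b1 hba
    have hcard : (O.H.reg.A (aD S X b b' (dg S b'))).card = 1 := by
      rw [card_eq_one]
      refine ⟨dg S (unrot b'), ?_⟩
      ext d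
      rw [mem_A' O.H, mem_singleton]
      constructor
      · rintro ⟨e, he1, rfl, he3, he4⟩
        rw [key e he1 he3 he4, dg_g]
      · rintro rfl
        exact ⟨a, ha, hdg.symm, hba, hv⟩
    rw [O.sD_b', O.xD_b']
    refine ⟨hcard, O.H.reg.unused_of_card_one (O.mem_face_b' A.face) ?_ hblx hcard, hblx⟩
    have : S.g (unrot b') ≠ unrot b' := face_glued (a := unrot b') A.face
    exact dg_mem_inc (a := unrot b') this

theorem bill_U (u1 : S.IsU pt b → ¬ (∃ c, c.1 = (S.g b).1 ∧ S.Blade c) → Alt1 S pt X b)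
    (u2 : S.IsU pt b' → ¬ (∃ c, c.1 = (S.g b').1 ∧ S.Blade c) → Alt2 S pt X b')
    (d : Finset (Sd I)) (hd : d ∈ O.H.reg.Ubs) : aD S X b b' d ∈ O.H.reg.zeros ∨
      ((sD S b b' d, xD S b b' d) ∈ O.H.reg.unused ∧
        O.H.reg.bl (xD S b b' d) = some (aD S X b b' d)) :=
  (O.bill_U' u1 u2 d hd).imp id (fun h => h.2)

end Op

end Pool.Agent.Helper41.AG7
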