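import Pool.Agent.Helper41.AG7.Alt
import Pool.Agent.Helper41.AG7.Closed
import Pool.Agent.Helper29.AG7.BillA2
import Pool.Agent.AG.Reg.Results

/-!
# AG section 7: the open case is impossible (given the angle statements of section 8)
-/

set_option autoImplicit false
set_option linter.unusedSectionVars false
open Finset

namespace Pool.Agent.Helper41.AG7

open AG AG.Obj Pool.Agent.Helper29.AG7

variable {I : Type} [DecidableEq I] {S : Obj I} {pt : Sd I → Pt} {R : Set Pt} {w0 w0' : Sd I}

theorem six_of (hO : OpenMin S pt R w0 w0') (hB : Base S pt) : Six S pt w0 w0' where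
  base := hB
  geo := hO.cex.geo
  s1 := s1_of hO.cex
  s2 := s2_of hO.cex
  pr := hO.pr
  d0 _ hu he := hO.no_blade hB hu he
  dv := env_dv (hO.env hB) (fun _ hu he => hO.no_blade hB hu he)
  de := env_de (hO.env hB)
  pAsub := (hO.env hB).subA

/-- the visits `v_i` are at `v0` -/
theorem vD_eqv {X : Finset I} {b b' : Sd I} (O : Op S pt X b b') {d : Finset (Sd I)}
    (hd : d ∈ Sts S X) : S.Eqv b (vD S X b b' d) := by
  rcases O.mem_St.1 hd with rfl | rfl
  · rw [O.vD_b]; exact last_eqv' S X b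
  · rw [O.vD_b']; exact O.eqv.trans (last_eqv' S X _)

theorem aD_eqv {X : Finset I} {b b' : Sd I} (O : Op S pt X b b') {d : Finset (Sd I)}
    (hd : d ∈ Sts S X) : S.Eqv (rot b) (aD S X b b' d) ∨ S.Eqv b' (aD S X b b' d) := by
  rcases O.mem_St.1 hd with rfl | rfl
  · left; rw [O.aD_b]; exact last_eqv' S X _
  · right; rw [O.aD_b']; exact last_eqv' S X _

open Classical in
theorem open_false (hO : OpenMin S pt R w0 w0') (hB : Base S pt)
    (hl : S.VirtA pt w0 → S.IsU pt w0 → S.Face (S.g w0).1 →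
      Real.pi ≤ cang pt (rot (S.g (rot w0))) + cang pt (rot w0) + cang pt (S.g w0))
    (hr : S.VirtB pt w0' → S.IsU pt (unrot w0') → S.Face (S.g (unrot w0')).1 →
      Real.pi ≤ cang pt (S.g (rot w0')) + cang pt (unrot w0') + cang pt (rot (S.g (unrot w0')))) :
    False := by
  have hE := hO.env hB
  have h6 := six_of hO hB
  have O := h6.op
  have H := O.H
  have Q := h6.rd
  have hC := hO.cex
  obtain ⟨X, hX⟩ : ∃ X, X = S.pB pt w0 w0' := ⟨_, rfl⟩
  obtain ⟨b, hb⟩ : ∃ b, b = S.hi pt w0' := ⟨_, rfl⟩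
  obtain ⟨b', hb'⟩ : ∃ b', b' = S.g (S.lo pt w0) := ⟨_, rfl⟩
  have u1 : S.IsU pt b → ¬ (∃ c, c.1 = (S.g b).1 ∧ S.Blade c) → Alt1 S pt X b := by
    rw [hb, hX]; exact h6.alt1 hr
  have u2 : S.IsU pt b' → ¬ (∃ c, c.1 = (S.g b').1 ∧ S.Blade c) → Alt2 S pt X b' := by
    rw [hb', hX]; exact h6.alt2 hl
  have hVb : ∀ z, S.Eqv b z → S.Eqv w0 z := fun z hz => by
    rw [hb] at hz; exact (h6.pr.eqv.trans h6.pr.b'.eqv_hi).trans hz
  have hout := fun a => @Six.no_vir_out I _ S pt w0 w0' h6 a
  have hno : ∀ u, S.BladeAt pt u → S.Eqv w0 u → u.1 ∉ X := by rw [hX]; exact h6.d0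
  rw [← hX] at hE O H Q hout
  rw [← hb, ← hb'] at O Q
  have hne : X.Nonempty := ⟨b.1, O.bX.1⟩
  obtain ⟨Ext, E⟩ := exists_extOf (X := X) hC.geo hB.lin H.sub hne
  have hUb : ∀ d ∈ O.H.reg.Ubs, aD S X b b' d ∉ O.H.reg.zeros →
      (O.H.reg.A (aD S X b b' d)).card = 1 ∧
        O.H.reg.bl (xD S b b' d) = some (aD S X b b' d) := by
    intro d hd hz
    rcases O.bill_U' u1 u2 d hd with h | h
    · exact absurd h hz
    · exact ⟨h.1, h.2.2⟩
  have hle := cand_le (V := S.Eqv w0) O.H hno (fun a h1 h2 h3 => hout a h1 h2 h3)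
  have hd4 := d4 hE
  let B : Bil I (Finset (Sd I)) (Sd I) Pt (Sd I × Sd I) :=
    { O.H.reg with
      X0 := X0 S pt X (S.Eqv w0)
      Ext := Ext
      pos := pt
      vp := vp S pt X
      tor := tor S pt
      wide := wide S pt
      a := aD S X b b'
      v := vD S X b b'
      s := sD S b b'
      xw := xD S b b'
      pe := pe S X
      a_inj := O.aD_inj
      v_inj := O.vD_inj
      a_ne_v := O.a_ne_v
      xw_not := O.xD_not
      pe_inj := pe_inj hB O.H
      pe_ne_vp := by
        intro x hx p hp h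
        have cp := (mem_CP.1 (mem_X0.1 hp).1).1
        exact pe_noB hB O.H hx cp.toPr.b (by rw [h]; exact vp_eqv cp.toPr)
      pe_ne_a := by
        intro x hx d hd h
        obtain ⟨c, z, hc, hc1, hz, he, _⟩ := pe_end O.H hx
        have hcX : c.1 ∈ X := by rw [hc1]; exact ((mem_Ecost O.H).1 hx).1
        have h1 : S.Eqv (aD S X b b' d) z := by
          rw [← h, he]; exact (last_eqv' S X z).symm
        rcases aD_eqv O (show d ∈ Sts S X from hd) with h2 | h2
        · exact Q.ear1 hc hcX hz (h2.trans h1)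
        · exact Q.ear2 hc hcX hz (h2.trans h1)
      pe_ne_v := by
        intro x hx d hd h
        obtain ⟨u, hu1, hu2⟩ := Q.bl0
        refine pe_noB hB O.H hx hu1 ?_
        rw [h]
        exact hu2.symm.trans (vD_eqv O (show d ∈ Sts S X from hd))
      vp_ne_v := by
        intro p hp d hd h
        obtain ⟨cp, _, _, hv⟩ := mem_CP.1 (mem_X0.1 hp).1
        apply hv
        apply hVb
        refine (vD_eqv O (show d ∈ Sts S X from hd)).trans ?_
        rw [← h]
        exact (vp_eqv cp.toPr).symm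
      tor_disj := fun p hp q hq hne => tor_disj hE (mem_X0.1 hp).1 (mem_X0.1 hq).1 hne
      wide_ext := wide_ext hC.geo hE E
      wide_inj := wide_inj hC.geo hE
      bill_a := bill_a_open hC O hE hVb E hUb
      bill_b := bill_b hE hC.geo O.H
      bill_c := O.bill_c E
      bill_U := O.bill_U u1 u2
      bill_P := O.bill_P }
  have h1 := B.final
  have h2 : B.St.card ≤ 2 := by
    show (Sts S X).card ≤ 2
    rw [card_Sts, O.bd]
    exact card_le_two
  have h3 : B.CU.card + B.CP.card ≤ B.X0.card := hle.trans hd4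
  have h4 : B.Ext.card = Ext.card := rfl
  have h5 := E.three
  omega

end Pool.Agent.Helper41.AG7
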