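import Pool.Agent.Helper41.AG7.Count

/-!
# AG (MP_586e8d, Shermer), section 7: bills and credits, abstract form

Every zero visit `w` has two credits `(w, true)` (called `α(w)`) and `(w, false)` (called `γ(w)`), every unused slot has
one credit. The bills are: `X0` (pairs with no non enclosed ear in their torso), the ear costs, the extreme points
`Ext`, the stubs of type (Ub), (Pb).

`a d`, `v d` = the end visits of the stub `d` (`v d` = the copy of the cut point `v`), `s d` = the triangle of `R` at `d`.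
-/

set_option autoImplicit false
open Finset

namespace Pool.Agent.Helper41.AG7

/-- the data of section 7 (bills) -/
structure Bil (τ δ ν κ π : Type*) [DecidableEq τ] [DecidableEq δ] [DecidableEq ν] [DecidableEq κ] [DecidableEq π]
    extends Reg τ δ ν where
  X0 : Finset π
  Ext : Finset κ
  pos : ν → κ
  vp : π → ν
  tor : π → Finset τ
  wide : π → Prop
  a : δ → ν
  v : δ → ν
  s : δ → τ
  /-- the other diagonal of `s d` at the visit `a d` -/
  xw : δ → δ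
  /-- the ear end of an ear cost -/
  pe : τ × δ → ν
  /- visits of the stubs -/
  a_inj : ∀ d ∈ St, ∀ d' ∈ St, a d = a d' → d = d'
  v_inj : ∀ d ∈ St, ∀ d' ∈ St, v d = v d' → d = d'
  a_ne_v : ∀ d ∈ St, ∀ d' ∈ St, a d ≠ v d'
  xw_not : ∀ d ∈ St, xw d ∉ St
  /- ear ends -/
  pe_inj : ∀ x ∈ toReg.Ecost, ∀ y ∈ toReg.Ecost, pe x = pe y → x = y
  pe_ne_vp : ∀ x ∈ toReg.Ecost, ∀ p ∈ X0, pe x ≠ vp p
  pe_ne_a : ∀ x ∈ toReg.Ecost, ∀ d ∈ St, pe x ≠ a d
  pe_ne_v : ∀ x ∈ toReg.Ecost, ∀ d ∈ St, pe x ≠ v d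
  /- pairs -/
  vp_ne_v : ∀ p ∈ X0, ∀ d ∈ St, vp p ≠ v d
  tor_disj : ∀ p ∈ X0, ∀ q ∈ X0, p ≠ q → Disjoint (tor p) (tor q)
  wide_ext : ∀ p ∈ X0, wide p → pos (vp p) ∉ Ext
  wide_inj : ∀ p ∈ X0, ∀ q ∈ X0, wide p → wide q → vp p = vp q → p = q
  /-- (a) -/
  bill_a : ∀ p ∈ X0, (vp p ∈ toReg.zeros ∧ wide p) ∨
    ∃ x ∈ toReg.unused, x.1 ∈ tor p ∧
      (∀ d ∈ St, x = (s d, d) → pos (a d) ∉ Ext) ∧
      (∀ d ∈ toReg.Ubs, a d ∉ toReg.zeros → x ≠ (s d, xw d))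
  /-- (b) -/
  bill_b : ∀ x ∈ toReg.Ecost, pe x ∈ toReg.zeros ∨
    ∃ y ∈ toReg.unused, bl y.2 = some (pe x) ∧ ∀ p ∈ X0, y.1 ∉ tor p
  /-- (c) -/
  bill_c : ∀ q ∈ Ext, (∃ w ∈ toReg.zeros, pos w = q) ∨
    ∃ d ∈ St, pos (a d) = q ∧ bl d = some (a d) ∧
      ((s d, d) ∈ toReg.unused ∨ ((toReg.A (a d)).card = 1 ∧ v d ∈ toReg.zeros))
  /-- (Ub) -/
  bill_U : ∀ d ∈ toReg.Ubs, a d ∈ toReg.zeros ∨
    ((s d, xw d) ∈ toReg.unused ∧ bl (xw d) = some (a d))
  /-- (Pb) -/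
  bill_P : ∀ d ∈ toReg.Pbs, v d ∈ toReg.zeros ∧ (toReg.A (a d)).card = 2

namespace Bil

variable {τ δ ν κ π : Type*} [DecidableEq τ] [DecidableEq δ] [DecidableEq ν] [DecidableEq κ] [DecidableEq π]
  (B : Bil τ δ ν κ π)

/-- the bills -/
inductive Bill (τ δ κ π : Type*)
  | A : π → Bill τ δ κ π
  | B : τ × δ → Bill τ δ κ π
  | C : κ → Bill τ δ κ π
  | U : δ → Bill τ δ κ π
  | P : δ → Bill τ δ κ π

/-- the bill is paid with the credit -/
inductive Pay : Bill τ δ κ π → (ν × Bool) ⊕ (τ × δ) → Prop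
  | a1 (p : π) : p ∈ B.X0 → B.vp p ∈ B.zeros → B.wide p → Pay (.A p) (.inl (B.vp p, true))
  | a2 (p : π) (x : τ × δ) : p ∈ B.X0 → x ∈ B.unused → x.1 ∈ B.tor p →
      (∀ d ∈ B.St, x = (B.s d, d) → B.pos (B.a d) ∉ B.Ext) →
      (∀ d ∈ B.Ubs, B.a d ∉ B.zeros → x ≠ (B.s d, B.xw d)) → Pay (.A p) (.inr x)
  | b1 (x : τ × δ) : x ∈ B.Ecost → B.pe x ∈ B.zeros → Pay (.B x) (.inl (B.pe x, true))
  | b2 (x y : τ × δ) : x ∈ B.Ecost → y ∈ B.unused → B.bl y.2 = some (B.pe x) →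
      (∀ p ∈ B.X0, y.1 ∉ B.tor p) → Pay (.B x) (.inr y)
  | c1 (w : ν) : w ∈ B.zeros → B.pos w ∈ B.Ext → Pay (.C (B.pos w)) (.inl (w, false))
  | c2 (d : δ) : d ∈ B.St → B.pos (B.a d) ∈ B.Ext → (B.s d, d) ∈ B.unused → B.bl d = some (B.a d) →
      Pay (.C (B.pos (B.a d))) (.inr (B.s d, d))
  | c3 (d : δ) : d ∈ B.St → B.pos (B.a d) ∈ B.Ext → (B.A (B.a d)).card = 1 → B.v d ∈ B.zeros →
      Pay (.C (B.pos (B.a d))) (.inl (B.v d, true))
  | u1 (d : δ) : d ∈ B.Ubs → B.a d ∈ B.zeros → (∀ p ∈ B.X0, B.wide p → B.vp p ≠ B.a d) →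
      Pay (.U d) (.inl (B.a d, true))
  | u2 (d : δ) (p : π) : d ∈ B.Ubs → B.a d ∈ B.zeros → p ∈ B.X0 → B.wide p → B.vp p = B.a d →
      Pay (.U d) (.inl (B.a d, false))
  | u3 (d : δ) : d ∈ B.Ubs → B.a d ∉ B.zeros → (B.s d, B.xw d) ∈ B.unused →
      B.bl (B.xw d) = some (B.a d) → Pay (.U d) (.inr (B.s d, B.xw d))
  | p1 (d : δ) : d ∈ B.Pbs → B.v d ∈ B.zeros → (B.A (B.a d)).card = 2 → Pay (.P d) (.inl (B.v d, true))

lemma Ubs_St (d : δ) (h : d ∈ B.Ubs) : d ∈ B.St := by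
  classical
  exact (mem_filter.1 h).1

lemma Pbs_St (d : δ) (h : d ∈ B.Pbs) : d ∈ B.St := by
  classical
  exact (mem_filter.1 h).1

/-- every credit pays at most one bill: credits `α` -/
lemma unique_t (b : Bill τ δ κ π) (w : ν) (h : B.Pay b (.inl (w, true))) (b' : Bill τ δ κ π)
    (h' : B.Pay b' (.inl (w, true))) : b = b' := by
  cases h with
  | a1 p h1 h2 h3 =>
    generalize hz : B.vp p = z at h'
    cases h' with
    | a1 q k1 k2 k3 => rw [B.wide_inj p h1 q k1 h3 k3 hz]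
    | b1 x k1 k2 => exact absurd hz.symm (B.pe_ne_vp x k1 p h1)
    | c3 d k1 k2 k3 k4 => exact absurd hz (B.vp_ne_v p h1 d k1)
    | u1 d k1 k2 k3 => exact absurd hz (k3 p h1 h3)
    | p1 d k1 k2 k3 => exact absurd hz (B.vp_ne_v p h1 d (B.Pbs_St d k1))
  | b1 x h1 h2 =>
    generalize hz : B.pe x = z at h'
    cases h' with
    | a1 q k1 k2 k3 => exact absurd hz (B.pe_ne_vp x h1 q k1)
    | b1 y k1 k2 => rw [B.pe_inj x h1 y k1 hz]
    | c3 d k1 k2 k3 k4 => exact absurd hz (B.pe_ne_v x h1 d k1)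
    | u1 d k1 k2 k3 => exact absurd hz (B.pe_ne_a x h1 d (B.Ubs_St d k1))
    | p1 d k1 k2 k3 => exact absurd hz (B.pe_ne_v x h1 d (B.Pbs_St d k1))
  | c3 e h1 h2 h3 h4 =>
    generalize hz : B.v e = z at h'
    cases h' with
    | a1 q k1 k2 k3 => exact absurd hz.symm (B.vp_ne_v q k1 e h1)
    | b1 y k1 k2 => exact absurd hz.symm (B.pe_ne_v y k1 e h1)
    | c3 d k1 k2 k3 k4 => rw [B.v_inj e h1 d k1 hz]
    | u1 d k1 k2 k3 => exact absurd hz.symm (B.a_ne_v d (B.Ubs_St d k1) e h1)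
    | p1 d k1 k2 k3 =>
      have := B.v_inj e h1 d (B.Pbs_St d k1) hz
      subst this
      rw [h3] at k3
      exact absurd k3 (by norm_num)
  | u1 e h1 h2 h3 =>
    generalize hz : B.a e = z at h'
    cases h' with
    | a1 q k1 k2 k3 => exact absurd hz.symm (h3 q k1 k3)
    | b1 y k1 k2 => exact absurd hz.symm (B.pe_ne_a y k1 e (B.Ubs_St e h1))
    | c3 d k1 k2 k3 k4 => exact absurd hz (B.a_ne_v e (B.Ubs_St e h1) d k1)
    | u1 d k1 k2 k3 => rw [B.a_inj e (B.Ubs_St e h1) d (B.Ubs_St d k1) hz]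
    | p1 d k1 k2 k3 => exact absurd hz (B.a_ne_v e (B.Ubs_St e h1) d (B.Pbs_St d k1))
  | p1 e h1 h2 h3 =>
    generalize hz : B.v e = z at h'
    cases h' with
    | a1 q k1 k2 k3 => exact absurd hz.symm (B.vp_ne_v q k1 e (B.Pbs_St e h1))
    | b1 y k1 k2 => exact absurd hz.symm (B.pe_ne_v y k1 e (B.Pbs_St e h1))
    | c3 d k1 k2 k3 k4 =>
      have := B.v_inj e (B.Pbs_St e h1) d k1 hz
      subst this
      rw [k3] at h3
      exact absurd h3 (by norm_num)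
    | u1 d k1 k2 k3 => exact absurd hz.symm (B.a_ne_v d (B.Ubs_St d k1) e (B.Pbs_St e h1))
    | p1 d k1 k2 k3 => rw [B.v_inj e (B.Pbs_St e h1) d (B.Pbs_St d k1) hz]

/-- credits `γ` -/
lemma unique_f (b : Bill τ δ κ π) (w : ν) (h : B.Pay b (.inl (w, false))) (b' : Bill τ δ κ π)
    (h' : B.Pay b' (.inl (w, false))) : b = b' := by
  cases h with
  | c1 _ h1 h2 =>
    cases h' with
    | c1 _ k1 k2 => rfl
    | u2 d p k1 k2 k3 k4 k5 =>
      rw [← k5] at h2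
      exact absurd h2 (B.wide_ext p k3 k4)
  | u2 e p h1 h2 h3 h4 h5 =>
    generalize hz : B.a e = z at h'
    cases h' with
    | c1 _ k1 k2 =>
      rw [← hz, ← h5] at k2
      exact absurd k2 (B.wide_ext p h3 h4)
    | u2 d q k1 k2 k3 k4 k5 => rw [B.a_inj e (B.Ubs_St e h1) d (B.Ubs_St d k1) hz]

/-- slots -/
lemma unique_s (b : Bill τ δ κ π) (y : τ × δ) (h : B.Pay b (.inr y)) (b' : Bill τ δ κ π)
    (h' : B.Pay b' (.inr y)) : b = b' := by
  cases h with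
  | a2 p _ h1 h2 h3 h4 h5 =>
    cases h' with
    | a2 q _ k1 k2 k3 k4 k5 =>
      by_contra hne
      have hpq : p ≠ q := by rintro rfl; exact hne rfl
      exact disjoint_left.1 (B.tor_disj p h1 q k1 hpq) h3 k3
    | b2 x _ k1 k2 k3 k4 => exact absurd h3 (k4 p h1)
    | c2 d k1 k2 k3 k4 => exact absurd k2 (h4 d k1 rfl)
    | u3 d k1 k2 k3 k4 => exact absurd rfl (h5 d k1 k2)
  | b2 x _ h1 h2 h3 h4 =>
    cases h' with
    | a2 q _ k1 k2 k3 k4 k5 => exact absurd k3 (h4 q k1)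
    | b2 x' _ k1 k2 k3 k4 =>
      rw [h3] at k3
      rw [B.pe_inj x h1 x' k1 (Option.some.inj k3)]
    | c2 d k1 k2 k3 k4 =>
      simp only at h3
      rw [k4] at h3
      exact absurd (Option.some.inj h3).symm (B.pe_ne_a x h1 d k1)
    | u3 d k1 k2 k3 k4 =>
      simp only at h3
      rw [k4] at h3
      exact absurd (Option.some.inj h3).symm (B.pe_ne_a x h1 d (B.Ubs_St d k1))
  | c2 e h1 h2 h3 h4 =>
    generalize hz : (B.s e, e) = z at h'
    cases h' with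
    | a2 q _ k1 k2 k3 k4 k5 => exact absurd h2 (k4 e h1 hz.symm)
    | b2 x _ k1 k2 k3 k4 =>
      rw [← hz] at k3
      simp only at k3
      rw [h4] at k3
      exact absurd (Option.some.inj k3).symm (B.pe_ne_a x k1 e h1)
    | c2 d k1 k2 k3 k4 =>
      have : e = d := (Prod.ext_iff.1 hz).2
      rw [this]
    | u3 d k1 k2 k3 k4 =>
      have : e = B.xw d := (Prod.ext_iff.1 hz).2
      rw [this] at h1
      exact absurd h1 (B.xw_not d (B.Ubs_St d k1))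
  | u3 e h1 h2 h3 h4 =>
    generalize hz : (B.s e, B.xw e) = z at h'
    cases h' with
    | a2 q _ k1 k2 k3 k4 k5 => exact absurd hz.symm (k5 e h1 h2)
    | b2 x _ k1 k2 k3 k4 =>
      rw [← hz] at k3
      simp only at k3
      rw [h4] at k3
      exact absurd (Option.some.inj k3).symm (B.pe_ne_a x k1 e (B.Ubs_St e h1))
    | c2 d k1 k2 k3 k4 =>
      have : B.xw e = d := (Prod.ext_iff.1 hz).2
      rw [← this] at k1
      exact absurd k1 (B.xw_not e (B.Ubs_St e h1))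
    | u3 d k1 k2 k3 k4 =>
      have : B.xw e = B.xw d := (Prod.ext_iff.1 hz).2
      rw [this, k4] at h4
      rw [B.a_inj e (B.Ubs_St e h1) d (B.Ubs_St d k1) (Option.some.inj h4).symm]

lemma unique (b b' : Bill τ δ κ π) (c : (ν × Bool) ⊕ (τ × δ)) (h : B.Pay b c) (h' : B.Pay b' c) : b = b' := by
  rcases c with ⟨w, t⟩ | y
  · cases t
    · exact B.unique_f b w h b' h'
    · exact B.unique_t b w h b' h'
  · exact B.unique_s b y h b' h'

/-- the credits -/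
noncomputable def credits : Finset ((ν × Bool) ⊕ (τ × δ)) := (B.zeros ×ˢ (univ : Finset Bool)).disjSum B.unused

lemma credits_card : B.credits.card = 2 * B.zeros.card + B.unused.card := by
  rw [credits, card_disjSum, card_product, Finset.card_univ, Fintype.card_bool, mul_comm]

lemma pay_mem (b : Bill τ δ κ π) (c : (ν × Bool) ⊕ (τ × δ)) (h : B.Pay b c) : c ∈ B.credits := by
  cases h with
  | a1 p h1 h2 h3 => rw [credits, inl_mem_disjSum, mem_product]; exact ⟨h2, mem_univ _⟩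
  | a2 p x h1 h2 h3 h4 h5 => rw [credits, inr_mem_disjSum]; exact h2
  | b1 x h1 h2 => rw [credits, inl_mem_disjSum, mem_product]; exact ⟨h2, mem_univ _⟩
  | b2 x y h1 h2 h3 h4 => rw [credits, inr_mem_disjSum]; exact h2
  | c1 w h1 h2 => rw [credits, inl_mem_disjSum, mem_product]; exact ⟨h1, mem_univ _⟩
  | c2 d h1 h2 h3 h4 => rw [credits, inr_mem_disjSum]; exact h3
  | c3 d h1 h2 h3 h4 => rw [credits, inl_mem_disjSum, mem_product]; exact ⟨h4, mem_univ _⟩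
  | u1 d h1 h2 h3 => rw [credits, inl_mem_disjSum, mem_product]; exact ⟨h2, mem_univ _⟩
  | u2 d p h1 h2 h3 h4 h5 => rw [credits, inl_mem_disjSum, mem_product]; exact ⟨h2, mem_univ _⟩
  | u3 d h1 h2 h3 h4 => rw [credits, inr_mem_disjSum]; exact h3
  | p1 d h1 h2 h3 => rw [credits, inl_mem_disjSum, mem_product]; exact ⟨h2, mem_univ _⟩

/-- the set of all bills, as a subset of a sum type -/
noncomputable def allB : Finset (((π ⊕ (τ × δ)) ⊕ κ) ⊕ (δ ⊕ δ)) :=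
  ((B.X0.disjSum B.Ecost).disjSum B.Ext).disjSum (B.Ubs.disjSum B.Pbs)

/-- from the sum type to bills -/
def toBill : ((π ⊕ (τ × δ)) ⊕ κ) ⊕ (δ ⊕ δ) → Bill τ δ κ π
  | .inl (.inl (.inl p)) => .A p
  | .inl (.inl (.inr x)) => .B x
  | .inl (.inr q) => .C q
  | .inr (.inl d) => .U d
  | .inr (.inr d) => .P d

omit [DecidableEq τ] [DecidableEq δ] [DecidableEq κ] [DecidableEq π] in
lemma toBill_inj (x y : ((π ⊕ (τ × δ)) ⊕ κ) ⊕ (δ ⊕ δ))
    (h : toBill (τ := τ) (δ := δ) (κ := κ) (π := π) x = toBill y) : x = y := by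
  rcases x with ((x | x) | x) | (x | x) <;> rcases y with ((y | y) | y) | (y | y) <;>
    simp_all [toBill]

lemma pay_ex (x : ((π ⊕ (τ × δ)) ⊕ κ) ⊕ (δ ⊕ δ)) (hx : x ∈ B.allB) :
    ∃ c, B.Pay (toBill x) c := by
  classical
  rcases x with ((p | x) | q) | (d | d)
  · rw [allB, inl_mem_disjSum, inl_mem_disjSum, inl_mem_disjSum] at hx
    rcases B.bill_a p hx with ⟨h1, h2⟩ | ⟨x, h1, h2, h3, h4⟩
    · exact ⟨_, Pay.a1 p hx h1 h2⟩
    · exact ⟨_, Pay.a2 p x hx h1 h2 h3 h4⟩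
  · rw [allB, inl_mem_disjSum, inl_mem_disjSum, inr_mem_disjSum] at hx
    rcases B.bill_b x hx with h1 | ⟨y, h1, h2, h3⟩
    · exact ⟨_, Pay.b1 x hx h1⟩
    · exact ⟨_, Pay.b2 x y hx h1 h2 h3⟩
  · rw [allB, inl_mem_disjSum, inr_mem_disjSum] at hx
    rcases B.bill_c q hx with ⟨w, h1, rfl⟩ | ⟨d, h1, rfl, h3, h4⟩
    · exact ⟨_, Pay.c1 w h1 hx⟩
    · rcases h4 with h4 | ⟨h4, h5⟩
      · exact ⟨_, Pay.c2 d h1 hx h4 h3⟩
      · exact ⟨_, Pay.c3 d h1 hx h4 h5⟩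
  · rw [allB, inr_mem_disjSum, inl_mem_disjSum] at hx
    by_cases h0 : B.a d ∈ B.zeros
    · by_cases h1 : ∃ p ∈ B.X0, B.wide p ∧ B.vp p = B.a d
      · obtain ⟨p, h2, h3, h4⟩ := h1
        exact ⟨_, Pay.u2 d p hx h0 h2 h3 h4⟩
      · refine ⟨_, Pay.u1 d hx h0 (fun p h2 h3 h4 => h1 ⟨p, h2, h3, h4⟩)⟩
    · rcases B.bill_U d hx with h1 | ⟨h1, h2⟩
      · exact absurd h1 h0
      · exact ⟨_, Pay.u3 d hx h0 h1 h2⟩
  · rw [allB, inr_mem_disjSum, inr_mem_disjSum] at hx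
    obtain ⟨h1, h2⟩ := B.bill_P d hx
    exact ⟨_, Pay.p1 d hx h1 h2⟩

/-- THE BILLS ARE PAID -/
theorem bills : B.X0.card + B.Ecost.card + B.Ext.card + B.Ubs.card + B.Pbs.card ≤
    2 * B.zeros.card + B.unused.card := by
  classical
  have h1 : B.allB.card ≤ B.credits.card := by
    rcases isEmpty_or_nonempty ((ν × Bool) ⊕ (τ × δ)) with h0 | h0
    · have : B.allB = ∅ := by
        rw [eq_empty_iff_forall_notMem]
        intro x hx
        obtain ⟨c, _⟩ := B.pay_ex x hx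
        exact h0.elim c
      rw [this, card_empty]
      exact Nat.zero_le _
    have h := B.pay_ex
    choose! f hf using h
    refine card_le_card_of_injOn f (fun x hx => B.pay_mem _ _ (hf x hx)) ?_
    intro x hx y hy hxy
    rw [mem_coe] at hx hy
    have e1 := hf x hx
    have e2 := hf y hy
    rw [← hxy] at e2
    exact toBill_inj x y (B.unique _ _ _ e1 e2)
  rw [credits_card, allB, card_disjSum, card_disjSum, card_disjSum, card_disjSum] at h1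
  omega

/-- with the counting inequality -/
theorem final : B.X0.card + B.Ext.card ≤ B.St.card + B.CU.card + B.CP.card := by
  have h1 := B.bills
  have h2 := B.toReg.count
  omega

end Bil

end Pool.Agent.Helper41.AG7
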