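import Pool.Agent.Helper41.AG7.Count

/-!
# AG (MP_586e8d, Shermer), section 7: criteria for unused slots
-/

set_option autoImplicit false
open Finset

namespace Pool.Agent.Helper41.AG7

namespace Reg

variable {τ δ ν : Type*} [DecidableEq τ] [DecidableEq δ] [DecidableEq ν] (D : Reg τ δ ν)

lemma mem_unused (s : τ) (d : δ) : (s, d) ∈ D.unused ↔ s ∈ D.face ∧ d ∈ D.inc s ∧ ¬ D.Used s d := by
  classical
  rw [unused, mem_filter, mem_product]
  constructor
  · rintro ⟨⟨h1, _⟩, h3, h4⟩
    exact ⟨h1, h3, h4⟩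
  · rintro ⟨h1, h3, h4⟩
    exact ⟨⟨h1, (D.inc_face s h1).1 h3⟩, h3, h4⟩

lemma mem_A {d : δ} {w : ν} : d ∈ D.A w ↔ d ∈ D.Dg ∧ D.bl d = some w := by
  rw [A, mem_filter]

lemma A_unique {d : δ} {w w' : ν} (h : D.bl d = some w) (h' : d ∈ D.A w') : w = w' := by
  have := (D.mem_A.1 h').2
  rw [h] at this
  exact Option.some.inj this

/-- a blade hosting a pair: its glued sides are the pair -/
lemma hosts_blade {t : τ} (ht : t ∈ D.blade) {w : ν} (h2 : (D.A w).card = 2) (h : D.A w ⊆ D.inc t) :
    D.A w = D.inc t := by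
  apply eq_of_subset_of_card_le h
  rw [h2, (D.inc_blade t ht).2]

/-- general criterion: `d` blocked at `w`, no other diagonal of `A w` on `s`, no blade hosts the pair at `w` -/
lemma unused_of {s : τ} {d : δ} {w : ν} (hs : s ∈ D.face) (hd : d ∈ D.inc s) (hb : D.bl d = some w)
    (h1 : ∀ d' ∈ D.A w, d' ∈ D.inc s → d' = d)
    (h2 : ∀ t ∈ D.blade, D.A w = D.inc t → (D.A w).card ≠ 2) : (s, d) ∈ D.unused := by
  rw [mem_unused]
  refine ⟨hs, hd, ?_⟩
  rintro (h | ⟨w', hw', hc, hsub, hdw⟩ | ⟨t, ht, hdt, ⟨w', hw', hc, hsub⟩, _⟩)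
  · rw [h] at hb
    exact absurd hb (by simp)
  · have := D.A_unique hb hdw
    subst this
    have h3 : D.A w ⊆ {d} := by
      intro d' hd'
      rw [mem_singleton]
      exact h1 d' hd' (hsub hd')
    have := card_le_card h3
    rw [hc, card_singleton] at this
    omega
  · have hA := D.hosts_blade ht hc hsub
    rw [← hA] at hdt
    have := D.A_unique hb hdt
    subst this
    exact h2 t ht hA hc

/-- the only diagonal blocked at its visit -/
lemma unused_of_card_one {s : τ} {d : δ} {w : ν} (hs : s ∈ D.face) (hd : d ∈ D.inc s) (hb : D.bl d = some w)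
    (h1 : (D.A w).card = 1) : (s, d) ∈ D.unused := by
  apply D.unused_of hs hd hb
  · intro d' hd' _
    have hdA : d ∈ D.A w := D.mem_A.2 ⟨(D.inc_face s hs).1 hd, hb⟩
    obtain ⟨x, hx⟩ := card_eq_one.1 h1
    rw [hx, mem_singleton] at hd' hdA
    rw [hd', hdA]
  · intro t _ _ h
    rw [h1] at h
    exact absurd h (by norm_num)

/-- a stub which is the side of a face and the only member of `A w` on it -/
lemma unused_stub {s : τ} {d : δ} {w : ν} (hs : s ∈ D.face) (hd : d ∈ D.inc s) (hst : d ∈ D.St)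
    (hb : D.bl d = some w) (h1 : ∀ d' ∈ D.A w, d' ∈ D.inc s → d' = d) : (s, d) ∈ D.unused := by
  apply D.unused_of hs hd hb h1
  intro t ht hA _
  have hdA : d ∈ D.A w := D.mem_A.2 ⟨D.St_sub hst, hb⟩
  rw [hA] at hdA
  have h2 := D.stub_one d hst
  have h3 : ({s, t} : Finset τ) ⊆ ((D.face ∪ D.blade) ∪ D.eared).filter (fun t => d ∈ D.inc t) := by
    intro x hx
    rw [mem_insert, mem_singleton] at hx
    rw [mem_filter, mem_union, mem_union]
    rcases hx with rfl | rfl
    · exact ⟨Or.inl (Or.inl hs), hd⟩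
    · exact ⟨Or.inl (Or.inr ht), hdA⟩
  have h4 := card_le_card h3
  have hne : s ≠ t := by
    rintro rfl
    exact disjoint_left.1 D.disj_fb hs ht
  rw [h2, card_pair hne] at h4
  omega

/-- a non U diagonal between two faces: one of its two slots is unused -/
lemma unused_inner {s s' : τ} {d : δ} {w : ν} (hs : s ∈ D.face) (hs' : s' ∈ D.face) (hne : s ≠ s')
    (hd : d ∈ D.inc s) (hd' : d ∈ D.inc s') (hb : D.bl d = some w) :
    (s, d) ∈ D.unused ∨ (s', d) ∈ D.unused := by
  have hDg := (D.inc_face s hs).1 hd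
  have hdA : d ∈ D.A w := D.mem_A.2 ⟨hDg, hb⟩
  -- no blade has the side d
  have hbl : ∀ t ∈ D.blade, d ∉ D.inc t := by
    intro t ht hdt
    have h3 : ({s, s', t} : Finset τ) ⊆ ((D.face ∪ D.blade) ∪ D.eared).filter (fun t => d ∈ D.inc t) := by
      intro x hx
      rw [mem_insert, mem_insert, mem_singleton] at hx
      rw [mem_filter, mem_union, mem_union]
      rcases hx with rfl | rfl | rfl
      · exact ⟨Or.inl (Or.inl hs), hd⟩
      · exact ⟨Or.inl (Or.inl hs'), hd'⟩
      · exact ⟨Or.inl (Or.inr ht), hdt⟩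
    have h4 := card_le_card h3
    have e1 : s ≠ t := by rintro rfl; exact disjoint_left.1 D.disj_fb hs ht
    have e2 : s' ≠ t := by rintro rfl; exact disjoint_left.1 D.disj_fb hs' ht
    have h5 : ({s, s', t} : Finset τ).card = 3 := card_eq_three.2 ⟨s, s', t, hne, e1, e2, rfl⟩
    rw [h5] at h4
    by_cases hst : d ∈ D.St
    · rw [D.stub_one d hst] at h4; omega
    · rw [D.inner_two d hDg hst] at h4; omega
  have hnot3 : ∀ t ∈ D.blade, D.A w = D.inc t → (D.A w).card ≠ 2 := by
    intro t ht hA _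
    exact hbl t ht (hA ▸ hdA)
  by_cases h1 : ∀ d' ∈ D.A w, d' ∈ D.inc s → d' = d
  · exact Or.inl (D.unused_of hs hd hb h1 hnot3)
  · right
    apply D.unused_of hs' hd' hb _ hnot3
    intro d1 hd1 hd1s'
    by_contra hne1
    push Not at h1
    obtain ⟨d2, hd2, hd2s, hne2⟩ := h1
    -- d, d1, d2 are in A w; |A w| ≤ 2, so d1 = d2, then s, s' share d and d1
    have hw : w ∈ D.V := D.bl_mem d hDg w hb
    have hle : (D.A w).card ≤ 2 := D.A_le w hw
    have h12 : d1 = d2 := by
      by_contra hn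
      have h5 : ({d, d1, d2} : Finset δ) ⊆ D.A w := by
        intro x hx
        rw [mem_insert, mem_insert, mem_singleton] at hx
        rcases hx with rfl | rfl | rfl
        · exact hdA
        · exact hd1
        · exact hd2
      have h6 := card_le_card h5
      rw [card_eq_three.2 ⟨d, d1, d2, fun h => hne1 h.symm, fun h => hne2 h.symm, hn, rfl⟩] at h6
      omega
    subst h12
    have h7 : ({d, d1} : Finset δ) ⊆ D.inc s ∩ D.inc s' := by
      intro x hx
      rw [mem_insert, mem_singleton] at hx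
      rw [mem_inter]
      rcases hx with rfl | rfl
      · exact ⟨hd, hd'⟩
      · exact ⟨hd2s, hd1s'⟩
    have h8 := card_le_card h7
    rw [card_pair (fun h => hne1 h.symm)] at h8
    have h9 := D.share s (by rw [mem_union, mem_union]; exact Or.inl (Or.inl hs)) s'
      (by rw [mem_union, mem_union]; exact Or.inl (Or.inl hs')) hne
    omega

end Reg

end Pool.Agent.Helper41.AG7
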