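import Pool.Agent.Helper29.AG7.RegOf
import Pool.Agent.AG.GeoExt
import Pool.Agent.AG.Fan
import Pool.Agent.Helper41.AG7.Bills
import Pool.Agent.Helper41.AG7.Slots

/-!
# AG section 7: the open region

`X` is the region `R`, `bd X = {b, b'}`, the stub `b` starts at `v0` (corner `b`), the stub `b'` ends at `v0`
(corner `rot b'`).  `a_1` = corner `rot b`, `a_2` = corner `b'`.
-/

set_option autoImplicit false
set_option linter.unusedSectionVars false
open Finset

namespace Pool.Agent.Helper41.AG7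

open AG AG.Obj Pool.Agent.Helper29.AG7

variable {I : Type} [DecidableEq I]

/-- the open region -/
structure Op (S : Obj I) (pt : Sd I → Pt) (X : Finset I) (b b' : Sd I) : Prop where
  geo : S.Geo pt
  H : RHyp S pt X
  bd : S.bd X = {b, b'}
  eqv : S.Eqv b (rot b')
  psl : S.ps (rot b') < S.ps b
  /-- not both stubs are blocked at `v0` -/
  nb : ¬ (S.Blk pt b ∧ S.Blk pt (S.g b'))
  f1 : S.Face b.1 ∨ S.Blade (rot b)
  f2 : S.Face b'.1 ∨ S.Blade b'

/-- the visit `a_i` of the stub `d` -/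
noncomputable def aD (S : Obj I) (X : Finset I) (b b' : Sd I) (d : Finset (Sd I)) : Sd I :=
  if d = dg S b then (S.keep X).last (rot b) else (S.keep X).last b'

/-- the visit `v_i` of the stub `d` -/
noncomputable def vD (S : Obj I) (X : Finset I) (b b' : Sd I) (d : Finset (Sd I)) : Sd I :=
  if d = dg S b then (S.keep X).last b else (S.keep X).last (rot b')

/-- the triangle `s_i` of the stub `d` -/
def sD (S : Obj I) (b b' : Sd I) (d : Finset (Sd I)) : I := if d = dg S b then b.1 else b'.1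

/-- the other diagonal of `s_i` at `a_i` -/
def xD (S : Obj I) (b b' : Sd I) (d : Finset (Sd I)) : Finset (Sd I) :=
  if d = dg S b then dg S (rot b) else dg S (unrot b')

variable {S : Obj I} {pt : Sd I → Pt} {X : Finset I} {b b' : Sd I}

theorem pt_last (hg : S.Geo pt) (X : Finset I) (a : Sd I) : pt ((S.keep X).last a) = pt a :=
  (hg.pt_eqv ((last_eqv (S.keep X) a).mono (keep_le S X))).symm

theorem ps_last (hl : S.Linear) (X : Finset I) (a : Sd I) : S.ps ((S.keep X).last a) ≤ S.ps a := by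
  obtain ⟨n, hn⟩ := keep_linear hl X a
  rw [last_eq_of hn]
  clear hn
  induction n with
  | zero => exact le_refl _
  | succ n ih =>
    rw [Function.iterate_succ_apply']
    refine le_trans ?_ ih
    obtain ⟨c, hc⟩ : ∃ c, c = (S.keep X).cw^[n] a := ⟨_, rfl⟩
    rw [← hc]
    by_cases h : (S.keep X).g c = c
    · rw [cw_of_unglued h]
    · have h1 : (S.keep X).cw c = S.cw c := by
        obtain ⟨h2, h3⟩ := (keep_le S X).glued h
        rw [cw_of_glued h, cw_of_glued h3, h2]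
      obtain ⟨h2, h3⟩ := (keep_le S X).glued h
      rw [h1, ps_of_glued hl h3]
      omega

/-- the visits of a diagonal -/
theorem vz_in {a : Sd I} (h : a.1 ∈ X) : vz S X a = (S.keep X).last a := by
  rw [vz, if_pos h]

theorem vz_out {a : Sd I} (h : a.1 ∉ X) : vz S X a = (S.keep X).last (rot (S.g a)) := by
  rw [vz, if_neg h]

theorem regA (H : RHyp S pt X) (w : Sd I) : H.reg.A w = Aw S X (S.Blk pt) w := rfl

theorem mem_A' (H : RHyp S pt X) {d : Finset (Sd I)} {w : Sd I} : d ∈ H.reg.A w ↔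
    ∃ a, (a.1 ∈ X ∨ (S.g a).1 ∈ X) ∧ d = dg S a ∧ S.Blk pt a ∧ vz S X a = w := by
  rw [regA]
  exact mem_Aw (fun a ha => ha.1) H.b1

theorem mem_zeros (H : RHyp S pt X) {w : Sd I} : w ∈ H.reg.zeros ↔ w ∈ (S.keep X).vis ∧
    ∀ a, (a.1 ∈ X ∨ (S.g a).1 ∈ X) → S.Blk pt a → vz S X a ≠ w := by
  rw [Reg.zeros, mem_filter, card_eq_zero, eq_empty_iff_forall_notMem]
  constructor
  · rintro ⟨h1, h2⟩
    refine ⟨h1, fun a ha hb hv => h2 (dg S a) ((mem_A' H).2 ⟨a, ha, rfl, hb, hv⟩)⟩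
  · rintro ⟨h1, h2⟩
    refine ⟨h1, fun d hd => ?_⟩
    obtain ⟨a, ha, _, hb, hv⟩ := (mem_A' H).1 hd
    exact h2 a ha hb hv

namespace Op

variable (O : Op S pt X b b')
include O

theorem bX : b.1 ∈ X ∧ (S.g b).1 ∉ X ∧ S.g b ≠ b := by
  have h : b ∈ S.bd X := by rw [O.bd]; exact mem_insert_self _ _
  obtain ⟨h1, h2, h3⟩ := mem_bd.1 h
  exact ⟨h2, h3, h1⟩

theorem bX' : b'.1 ∈ X ∧ (S.g b').1 ∉ X ∧ S.g b' ≠ b' := by
  have h : b' ∈ S.bd X := by rw [O.bd]; exact mem_insert_of_mem (mem_singleton_self _)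
  obtain ⟨h1, h2, h3⟩ := mem_bd.1 h
  exact ⟨h2, h3, h1⟩

theorem ptv : pt (rot b') = pt b := (O.geo.pt_eqv O.eqv).symm

theorem bF : b.1 ∈ S.F := O.H.sub O.bX.1
theorem bF' : b'.1 ∈ S.F := O.H.sub O.bX'.1

theorem ne : b ≠ b' := by
  intro h
  have h1 := O.ptv
  rw [← h] at h1
  exact O.geo.pt_ne_rot O.bF h1.symm

theorem dg_ne : dg S b' ≠ dg S b := by
  intro h
  rcases dg_eq_iff.1 h with h1 | h1
  · exact O.ne h1
  · have := O.bX'.2.1
    rw [← h1] at this
    exact this O.bX.1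

theorem mem_St {d : Finset (Sd I)} : d ∈ Sts S X ↔ d = dg S b ∨ d = dg S b' := by
  rw [Sts, O.bd, image_insert, image_singleton, mem_insert, mem_singleton]

theorem aD_b : aD S X b b' (dg S b) = (S.keep X).last (rot b) := if_pos rfl
theorem aD_b' : aD S X b b' (dg S b') = (S.keep X).last b' := if_neg O.dg_ne
theorem vD_b : vD S X b b' (dg S b) = (S.keep X).last b := if_pos rfl
theorem vD_b' : vD S X b b' (dg S b') = (S.keep X).last (rot b') := if_neg O.dg_ne
theorem sD_b : sD S b b' (dg S b) = b.1 := if_pos rfl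
theorem sD_b' : sD S b b' (dg S b') = b'.1 := if_neg O.dg_ne
theorem xD_b : xD S b b' (dg S b) = dg S (rot b) := if_pos rfl
theorem xD_b' : xD S b b' (dg S b') = dg S (unrot b') := if_neg O.dg_ne

/-- the four sides at the stubs -/
theorem stub_side {a : Sd I} (h : a.1 ∈ X ∨ (S.g a).1 ∈ X) (hg : S.g a ≠ a)
    (hn : ¬ (a.1 ∈ X ∧ (S.g a).1 ∈ X)) : a = b ∨ a = S.g b ∨ a = b' ∨ a = S.g b' := by
  by_cases h1 : a.1 ∈ X
  · have h2 : (S.g a).1 ∉ X := fun h2 => hn ⟨h1, h2⟩
    have h3 : a ∈ S.bd X := mem_bd.2 ⟨hg, h1, h2⟩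
    rw [O.bd, mem_insert, mem_singleton] at h3
    rcases h3 with h3 | h3
    · exact Or.inl h3
    · exact Or.inr (Or.inr (Or.inl h3))
  · have h2 : (S.g a).1 ∈ X := h.resolve_left h1
    have h3 : S.g a ∈ S.bd X := mem_bd.2 ⟨by rw [S.invol]; exact hg.symm, h2, by rw [S.invol]; exact h1⟩
    rw [O.bd, mem_insert, mem_singleton] at h3
    rcases h3 with h3 | h3
    · right; left; rw [← h3, S.invol]
    · right; right; right; rw [← h3, S.invol]

theorem vz_gb : vz S X (S.g b) = (S.keep X).last (rot b) := by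
  rw [vz_out O.bX.2.1, S.invol]

theorem vz_gb' : vz S X (S.g b') = (S.keep X).last (rot b') := by
  rw [vz_out O.bX'.2.1, S.invol]

theorem keep_b : (S.keep X).g b = b := by
  rw [keep_g, if_neg]
  exact fun h => O.bX.2.1 h.2

theorem keep_b' : (S.keep X).g b' = b' := by
  rw [keep_g, if_neg]
  exact fun h => O.bX'.2.1 h.2

theorem last_b : (S.keep X).last b = b := last_of_unglued O.keep_b

theorem last_b' : (S.keep X).last b' = b' := last_of_unglued O.keep_b'

theorem v_ne : (S.keep X).last b ≠ (S.keep X).last (rot b') := by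
  intro h
  rw [O.last_b] at h
  have h1 := ps_last O.H.lin X (rot b')
  rw [← h] at h1
  have := O.psl
  omega

theorem pt_a_ne : pt (rot b) ≠ pt b' := by
  intro h
  have h1 : b = S.g b' := by
    apply O.geo.side_inj O.bF (g_memF O.bX'.2.2)
    · rw [O.geo.mat' O.bX'.2.2, O.ptv]
    · rw [h, O.geo.mat b' O.bX'.2.2]
  have := O.bX'.2.1
  rw [← h1] at this
  exact this O.bX.1

theorem a_ne : (S.keep X).last (rot b) ≠ (S.keep X).last b' := by
  intro h
  apply O.pt_a_ne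
  rw [← pt_last O.geo X (rot b), h, pt_last O.geo]

theorem pt_rb_ne : pt (rot b) ≠ pt b := fun h => O.geo.pt_ne_rot O.bF h.symm

theorem pt_b'_ne : pt b' ≠ pt b := fun h => O.geo.pt_ne_rot O.bF' (by rw [h, O.ptv])

theorem pt_aD {d : Finset (Sd I)} (hd : d ∈ Sts S X) : pt (aD S X b b' d) ≠ pt b := by
  rcases O.mem_St.1 hd with rfl | rfl
  · rw [O.aD_b, pt_last O.geo]; exact O.pt_rb_ne
  · rw [O.aD_b', pt_last O.geo]; exact O.pt_b'_ne

theorem pt_vD {d : Finset (Sd I)} (hd : d ∈ Sts S X) : pt (vD S X b b' d) = pt b := by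
  rcases O.mem_St.1 hd with rfl | rfl
  · rw [O.vD_b, pt_last O.geo]
  · rw [O.vD_b', pt_last O.geo, O.ptv]

theorem aD_inj : ∀ d ∈ Sts S X, ∀ d' ∈ Sts S X, aD S X b b' d = aD S X b b' d' → d = d' := by
  intro d hd d' hd' h
  rcases O.mem_St.1 hd with rfl | rfl <;> rcases O.mem_St.1 hd' with rfl | rfl
  · rfl
  · rw [O.aD_b, O.aD_b'] at h; exact absurd h O.a_ne
  · rw [O.aD_b, O.aD_b'] at h; exact absurd h.symm O.a_ne
  · rfl

theorem vD_inj : ∀ d ∈ Sts S X, ∀ d' ∈ Sts S X, vD S X b b' d = vD S X b b' d' → d = d' := by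
  intro d hd d' hd' h
  rcases O.mem_St.1 hd with rfl | rfl <;> rcases O.mem_St.1 hd' with rfl | rfl
  · rfl
  · rw [O.vD_b, O.vD_b'] at h; exact absurd h O.v_ne
  · rw [O.vD_b, O.vD_b'] at h; exact absurd h.symm O.v_ne
  · rfl

theorem a_ne_v : ∀ d ∈ Sts S X, ∀ d' ∈ Sts S X, aD S X b b' d ≠ vD S X b b' d' := by
  intro d hd d' hd' h
  have h1 := O.pt_aD hd
  rw [h, O.pt_vD hd'] at h1
  exact h1 rfl

theorem xD_not : ∀ d ∈ Sts S X, xD S b b' d ∉ Sts S X := by
  intro d hd h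
  -- the ends of `x w` are not at `v0`
  have key : ∀ a : Sd I, a.1 ∈ S.F → pt a ≠ pt b → pt (rot a) ≠ pt b → dg S a ∉ Sts S X := by
    intro a ha h1 h2 h3
    rcases O.mem_St.1 h3 with h4 | h4
    · rcases dg_eq_iff.1 h4 with h5 | h5
      · rw [← h5] at h1; exact h1 rfl
      · have h6 : a = S.g b := by rw [h5, S.invol]
        rw [h6, O.geo.mat b O.bX.2.2] at h2
        exact h2 rfl
    · rcases dg_eq_iff.1 h4 with h5 | h5
      · rw [← h5, O.ptv] at h2; exact h2 rfl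
      · have h6 : a = S.g b' := by rw [h5, S.invol]
        rw [h6, O.geo.mat' O.bX'.2.2, O.ptv] at h1
        exact h1 rfl
  rcases O.mem_St.1 hd with rfl | rfl
  · rw [O.xD_b] at h
    refine key (rot b) O.bF O.pt_rb_ne ?_ h
    rw [rot_rot]
    exact fun h => O.geo.pt_ne_unrot O.bF h.symm
  · rw [O.xD_b'] at h
    refine key (unrot b') O.bF' ?_ ?_ h
    · intro h
      exact O.geo.pt_rot_ne_unrot O.bF' (by rw [h, O.ptv])
    · rw [rot_unrot]; exact O.pt_b'_ne

/-- `a_1, a_2, v_1, v_2` are visits of the region -/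
theorem aD_mem {d : Finset (Sd I)} (hd : d ∈ Sts S X) : aD S X b b' d ∈ (S.keep X).vis := by
  have hs : ∀ a : Sd I, a.1 ∈ X → (S.keep X).last a ∈ (S.keep X).vis := fun a ha =>
    last_mem_vis (keep_linear O.H.lin X) (mem_sides.2 (by rw [keep_F S O.H.sub]; exact ha))
  rcases O.mem_St.1 hd with rfl | rfl
  · rw [O.aD_b]; exact hs _ O.bX.1
  · rw [O.aD_b']; exact hs _ O.bX'.1

theorem vD_mem {d : Finset (Sd I)} (hd : d ∈ Sts S X) : vD S X b b' d ∈ (S.keep X).vis := by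
  have hs : ∀ a : Sd I, a.1 ∈ X → (S.keep X).last a ∈ (S.keep X).vis := fun a ha =>
    last_mem_vis (keep_linear O.H.lin X) (mem_sides.2 (by rw [keep_F S O.H.sub]; exact ha))
  rcases O.mem_St.1 hd with rfl | rfl
  · rw [O.vD_b]; exact hs _ O.bX.1
  · rw [O.vD_b']; exact hs _ O.bX'.1

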