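import Mathlib

/-!
# AG (MP_586e8d, Shermer), section 7: the counting inequality, abstract form

`R` = triangles of the region, `Dg = R^+` (inner diagonals and stubs), `St` = stubs (`|St| = 2`, closed case `0`),
`V` = visits of `R`, `inc t` = glued sides of `t`, `bl d = none` iff `d` is a U diagonal, `bl d = some w` iff `d` is
blocked at the visit `w`; `A w` = diagonals blocked at `w`.
-/

set_option autoImplicit false
open Finset

namespace Pool.Agent.Helper41.AG7

/-- the data of section 7 (counting part) -/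
structure Reg (τ δ ν : Type*) [DecidableEq τ] [DecidableEq δ] [DecidableEq ν] where
  face : Finset τ
  blade : Finset τ
  eared : Finset τ
  Dg : Finset δ
  St : Finset δ
  V : Finset ν
  inc : τ → Finset δ
  bl : δ → Option ν
  /-- the neighbour of the (pair-ready) blade `t` across `d` is active -/
  act : τ → δ → Prop
  /-- the triangle outside `R` at the stub `d` is a blade -/
  outB : δ → Prop
  /-- pair-ready blades of `R` with exactly one active neighbour, which is in `R` -/
  CP : Finset τ
  disj_fb : Disjoint face blade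
  disj_fe : Disjoint face eared
  disj_be : Disjoint blade eared
  St_sub : St ⊆ Dg
  inc_face : ∀ t ∈ face, inc t ⊆ Dg ∧ (inc t).card = 3
  inc_blade : ∀ t ∈ blade, inc t ⊆ Dg ∧ (inc t).card = 2
  inc_eared : ∀ t ∈ eared, inc t ⊆ Dg ∧ (inc t).card = 2
  /-- an inner diagonal is a side of exactly two triangles of `R`, a stub of exactly one -/
  inner_two : ∀ d ∈ Dg, d ∉ St → (((face ∪ blade) ∪ eared).filter (fun t => d ∈ inc t)).card = 2
  stub_one : ∀ d ∈ St, (((face ∪ blade) ∪ eared).filter (fun t => d ∈ inc t)).card = 1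
  /-- two triangles share at most one diagonal -/
  share : ∀ t ∈ (face ∪ blade) ∪ eared, ∀ t' ∈ (face ∪ blade) ∪ eared, t ≠ t' → (inc t ∩ inc t').card ≤ 1
  bl_mem : ∀ d ∈ Dg, ∀ w, bl d = some w → w ∈ V
  A_le : ∀ w ∈ V, (Dg.filter (fun d => bl d = some w)).card ≤ 2
  /-- a pair is hosted by a triangle of `R` -/
  host : ∀ w ∈ V, (Dg.filter (fun d => bl d = some w)).card = 2 →
    ∃ t ∈ (face ∪ blade) ∪ eared, Dg.filter (fun d => bl d = some w) ⊆ inc t
  /-- number of visits -/
  visits : V.card + 2 * Dg.card = 3 * ((face ∪ blade) ∪ eared).card + 2 * St.card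
  /-- no U diagonal between two blades -/
  U_blades : ∀ d ∈ Dg, bl d = none → (blade.filter (fun t => d ∈ inc t)).card ≤ 1
  U_blades_out : ∀ d ∈ St, bl d = none → outB d → ∀ t ∈ blade, d ∉ inc t
  /-- a blade hosting a pair: both neighbours are active, or it is in `CP` and at least one is active -/
  pair_ready : ∀ t ∈ blade, (∃ w ∈ V, Dg.filter (fun d => bl d = some w) = inc t) →
    (∀ d ∈ inc t, act t d) ∨ (t ∈ CP ∧ ∃ d ∈ inc t, act t d)
  /-- an active neighbour inside `R` is a face -/
  act_face : ∀ t ∈ blade, ∀ d ∈ inc t, d ∉ St → act t d → ∃ s ∈ face, d ∈ inc s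

namespace Reg

variable {τ δ ν : Type*} [DecidableEq τ] [DecidableEq δ] [DecidableEq ν] (D : Reg τ δ ν)

/-- the triangles of `R` -/
def R : Finset τ := (D.face ∪ D.blade) ∪ D.eared

/-- the diagonals blocked at the visit `w` -/
def A (w : ν) : Finset δ := D.Dg.filter (fun d => D.bl d = some w)

/-- `t` hosts a pair -/
def Hosts (t : τ) : Prop := ∃ w ∈ D.V, (D.A w).card = 2 ∧ D.A w ⊆ D.inc t

/-- the slot `(s, d)` is used -/
def Used (s : τ) (d : δ) : Prop :=
  D.bl d = none ∨ (∃ w ∈ D.V, (D.A w).card = 2 ∧ D.A w ⊆ D.inc s ∧ d ∈ D.A w) ∨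
    (∃ t ∈ D.blade, d ∈ D.inc t ∧ D.Hosts t ∧ D.act t d)

open Classical in
/-- the unused slots -/
noncomputable def unused : Finset (τ × δ) :=
  (D.face ×ˢ D.Dg).filter (fun x => x.2 ∈ D.inc x.1 ∧ ¬ D.Used x.1 x.2)

/-- the zero visits -/
def zeros : Finset ν := D.V.filter (fun w => (D.A w).card = 0)

open Classical in
/-- the U diagonals with a blade on one side (in `R` or, for a stub, outside) -/
noncomputable def CU : Finset δ :=
  D.Dg.filter (fun d => D.bl d = none ∧ ((∃ t ∈ D.blade, d ∈ D.inc t) ∨ (d ∈ D.St ∧ D.outB d)))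

open Classical in
/-- costs of the eared triangles -/
noncomputable def Ecost : Finset (τ × δ) :=
  (D.eared ×ˢ D.Dg).filter (fun x => x.2 ∈ D.inc x.1 ∧ (D.bl x.2 = none ∨ D.Hosts x.1))

open Classical in
/-- the stubs of type (Ub) -/
noncomputable def Ubs : Finset δ := D.St.filter (fun d => D.bl d = none ∧ ¬ D.outB d)

open Classical in
/-- the stubs of type (Pb) -/
noncomputable def Pbs : Finset δ :=
  D.St.filter (fun d => ∃ t ∈ D.blade, d ∈ D.inc t ∧ D.Hosts t ∧ D.act t d)

/-- the diagonals which belong to a pair -/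
def D2 : Finset δ := (D.V.filter (fun w => (D.A w).card = 2)).biUnion D.A

/-- the U diagonals -/
def DU : Finset δ := D.Dg.filter (fun d => D.bl d = none)

open Classical in
/-- number of triangles of the set `X` with the side `d` -/
noncomputable def cf (X : Finset τ) (d : δ) : ℕ := (X.filter (fun t => d ∈ D.inc t)).card

lemma sum_cf (X : Finset τ) (hX : ∀ t ∈ X, D.inc t ⊆ D.Dg) :
    ∑ d ∈ D.Dg, D.cf X d = ∑ t ∈ X, (D.inc t).card := by
  classical
  have h1 : ∀ d ∈ D.Dg, D.cf X d = ∑ t ∈ X, if d ∈ D.inc t then 1 else 0 := by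
    intro d _
    rw [cf, card_filter]
  rw [sum_congr rfl h1, sum_comm]
  refine sum_congr rfl (fun t ht => ?_)
  rw [← card_filter]
  congr 1
  ext d
  rw [mem_filter]
  exact ⟨fun h => h.2, fun h => ⟨hX t ht h, h⟩⟩

lemma R_card : D.R.card = D.face.card + D.blade.card + D.eared.card := by
  rw [R, card_union_of_disjoint, card_union_of_disjoint D.disj_fb]
  rw [disjoint_union_left]
  exact ⟨D.disj_fe, D.disj_be⟩

lemma cf_R (d : δ) : D.cf D.R d = D.cf D.face d + D.cf D.blade d + D.cf D.eared d := by
  classical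
  unfold cf R
  rw [filter_union, filter_union, card_union_of_disjoint, card_union_of_disjoint]
  · exact disjoint_filter_filter D.disj_fb
  · rw [disjoint_union_left]
    exact ⟨disjoint_filter_filter D.disj_fe, disjoint_filter_filter D.disj_be⟩

lemma inc_R (t : τ) (ht : t ∈ D.R) : D.inc t ⊆ D.Dg := by
  rw [R, mem_union, mem_union] at ht
  rcases ht with (h | h) | h
  · exact (D.inc_face t h).1
  · exact (D.inc_blade t h).1
  · exact (D.inc_eared t h).1

lemma sum_R : 3 * D.face.card + 2 * D.blade.card + 2 * D.eared.card + D.St.card = 2 * D.Dg.card := by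
  classical
  have h1 : ∑ d ∈ D.Dg, D.cf D.R d = ∑ t ∈ D.R, (D.inc t).card := D.sum_cf D.R D.inc_R
  have h2 : ∑ t ∈ D.R, (D.inc t).card = 3 * D.face.card + 2 * D.blade.card + 2 * D.eared.card := by
    rw [R, sum_union, sum_union D.disj_fb]
    · rw [sum_congr rfl (fun t ht => (D.inc_face t ht).2), sum_congr rfl (fun t ht => (D.inc_blade t ht).2),
        sum_congr rfl (fun t ht => (D.inc_eared t ht).2)]
      simp only [sum_const, smul_eq_mul]
      ring
    · rw [disjoint_union_left]
      exact ⟨D.disj_fe, D.disj_be⟩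
  have h3 : ∑ d ∈ D.Dg, (D.cf D.R d + if d ∈ D.St then 1 else 0) = ∑ d ∈ D.Dg, 2 := by
    refine sum_congr rfl (fun d hd => ?_)
    by_cases h : d ∈ D.St
    · rw [if_pos h]
      have := D.stub_one d h
      unfold cf R
      convert congrArg (· + 1) this
    · rw [if_neg h, add_zero]
      have := D.inner_two d hd h
      unfold cf R
      convert this
  rw [sum_add_distrib, h1, h2, ← card_filter, sum_const, smul_eq_mul] at h3
  have h4 : D.Dg.filter (fun d => d ∈ D.St) = D.St := by
    ext d
    rw [mem_filter]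
    exact ⟨fun h => h.2, fun h => ⟨D.St_sub h, h⟩⟩
  rw [h4] at h3
  omega

lemma card_Dg : D.Dg.card = D.DU.card + ∑ w ∈ D.V, (D.A w).card := by
  classical
  have h1 : D.Dg = D.DU ∪ D.V.biUnion D.A := by
    ext d
    rw [mem_union, mem_biUnion]
    constructor
    · intro hd
      cases h : D.bl d with
      | none => exact Or.inl (by rw [DU, mem_filter]; exact ⟨hd, h⟩)
      | some w => exact Or.inr ⟨w, D.bl_mem d hd w h, by rw [A, mem_filter]; exact ⟨hd, h⟩⟩
    · rintro (h | ⟨w, _, h⟩)
      · exact (mem_filter.1 h).1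
      · exact (mem_filter.1 h).1
  have h2 : Disjoint D.DU (D.V.biUnion D.A) := by
    rw [disjoint_left]
    intro d h h'
    rw [mem_biUnion] at h'
    obtain ⟨w, _, h'⟩ := h'
    have e1 := (mem_filter.1 h).2
    have e2 := (mem_filter.1 h').2
    rw [e1] at e2
    exact absurd e2 (by simp)
  conv_lhs => rw [h1]
  rw [card_union_of_disjoint h2, card_biUnion]
  intro w _ w' _ hw
  rw [Function.onFun, disjoint_left]
  intro d h h'
  have e1 := (mem_filter.1 h).2
  have e2 := (mem_filter.1 h').2
  rw [e1] at e2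
  exact hw (Option.some.inj e2)

lemma sum_A : ∑ w ∈ D.V, (D.A w).card + D.zeros.card =
    D.V.card + (D.V.filter (fun w => (D.A w).card = 2)).card := by
  classical
  rw [zeros, card_filter, card_filter, card_eq_sum_ones, ← sum_add_distrib, ← sum_add_distrib]
  refine sum_congr rfl (fun w hw => ?_)
  have := D.A_le w hw
  have h : (D.A w).card ≤ 2 := this
  interval_cases h' : (D.A w).card <;> simp

lemma card_D2 : D.D2.card = 2 * (D.V.filter (fun w => (D.A w).card = 2)).card := by
  classical
  rw [D2, card_biUnion]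
  · rw [sum_congr rfl (fun w hw => (mem_filter.1 hw).2), sum_const, smul_eq_mul, mul_comm]
  · intro w _ w' _ hw
    rw [Function.onFun, disjoint_left]
    intro d h h'
    have e1 := (mem_filter.1 h).2
    have e2 := (mem_filter.1 h').2
    rw [e1] at e2
    exact hw (Option.some.inj e2)

/-- `2 (P + U) + |St| = 3 |face| + 2 z` -/
lemma slots_eq : D.D2.card + 2 * D.DU.card + D.St.card = 3 * D.face.card + 2 * D.zeros.card := by
  have h1 := D.sum_R
  have h2 := D.card_Dg
  have h3 := D.sum_A
  have h4 := D.card_D2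
  have h5 := D.visits
  have h6 := D.R_card
  rw [R] at h6
  omega

open Classical in
/-- number of used slots at `d` -/
noncomputable def uf (d : δ) : ℕ := (D.face.filter (fun s => d ∈ D.inc s ∧ D.Used s d)).card

open Classical in
/-- number of ear costs at `d` -/
noncomputable def ef (d : δ) : ℕ :=
  (D.eared.filter (fun t => d ∈ D.inc t ∧ (D.bl d = none ∨ D.Hosts t))).card

open Classical in
/-- the bad diagonals: a non active neighbour of a blade of `CP` -/
noncomputable def bad : Finset δ :=
  D.Dg.filter (fun d => ∃ t ∈ D.CP, t ∈ D.blade ∧ d ∈ D.inc t ∧ ¬ D.act t d ∧ ∃ d' ∈ D.inc t, D.act t d')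

lemma card_bad : D.bad.card ≤ D.CP.card := by
  classical
  have h : ∀ d ∈ D.bad, ∃ t ∈ D.CP, t ∈ D.blade ∧ d ∈ D.inc t ∧ ¬ D.act t d ∧ ∃ d' ∈ D.inc t, D.act t d' :=
    fun d hd => (mem_filter.1 hd).2
  rcases isEmpty_or_nonempty τ with h0 | h0
  · have : D.bad = ∅ := by
      rw [eq_empty_iff_forall_notMem]
      intro d hd
      obtain ⟨t, _⟩ := h d hd
      exact h0.elim t
    rw [this, card_empty]
    exact Nat.zero_le _
  choose! f hf using h
  refine card_le_card_of_injOn f (fun d hd => (hf d hd).1) ?_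
  intro d hd d' hd' hff
  rw [mem_coe] at hd hd'
  obtain ⟨_, h2, h3, h4, e, he, he'⟩ := hf d hd
  obtain ⟨_, _, h3', h4', _⟩ := hf d' hd'
  rw [← hff] at h3' h4'
  by_contra hne
  have h5 : ({d, d', e} : Finset δ) ⊆ D.inc (f d) := by
    intro x hx
    rw [mem_insert, mem_insert, mem_singleton] at hx
    rcases hx with rfl | rfl | rfl
    · exact h3
    · exact h3'
    · exact he
  have h6 := card_le_card h5
  have h7 : ({d, d', e} : Finset δ).card = 3 := by
    rw [card_eq_three]
    refine ⟨d, d', e, hne, ?_, ?_, rfl⟩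
    · rintro rfl; exact h4 he'
    · rintro rfl; exact h4' he'
  rw [h7, (D.inc_blade _ h2).2] at h6
  omega

lemma sum_uf : ∑ d ∈ D.Dg, D.uf d + D.unused.card = 3 * D.face.card := by
  classical
  have h1 : D.unused.card = ∑ d ∈ D.Dg, (D.face.filter (fun s => d ∈ D.inc s ∧ ¬ D.Used s d)).card := by
    rw [unused, card_filter, sum_product_right]
    refine sum_congr rfl (fun d _ => ?_)
    rw [card_filter]
  have h2 : ∑ d ∈ D.Dg, D.cf D.face d = 3 * D.face.card := by
    rw [D.sum_cf D.face (fun t ht => (D.inc_face t ht).1),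
      sum_congr rfl (fun t ht => (D.inc_face t ht).2), sum_const, smul_eq_mul, mul_comm]
  rw [h1, ← h2, ← sum_add_distrib]
  refine sum_congr rfl (fun d _ => ?_)
  rw [uf, cf, ← filter_filter, ← filter_filter]
  exact card_filter_add_card_filter_not _

lemma sum_ef : ∑ d ∈ D.Dg, D.ef d = D.Ecost.card := by
  classical
  rw [Ecost, card_filter, sum_product_right]
  refine sum_congr rfl (fun d _ => ?_)
  rw [ef, card_filter]

lemma local_U (d : δ) (hd : d ∈ D.Dg) (hU : D.bl d = none) :
    2 ≤ D.uf d + D.ef d + (if d ∈ D.CU then 1 else 0) + (if d ∈ D.Ubs then 1 else 0) := by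
  classical
  have h1 : D.uf d = D.cf D.face d := by
    rw [uf, cf]
    congr 1
    refine filter_congr (fun s _ => ?_)
    exact ⟨fun h => h.1, fun h => ⟨h, Or.inl hU⟩⟩
  have h2 : D.ef d = D.cf D.eared d := by
    rw [ef, cf]
    congr 1
    refine filter_congr (fun s _ => ?_)
    exact ⟨fun h => h.1, fun h => ⟨h, Or.inl hU⟩⟩
  have h3 := D.cf_R d
  have h4 : D.cf D.blade d ≤ 1 := by
    have := D.U_blades d hd hU
    rw [cf]
    convert this
  have h5 : D.cf D.blade d = 1 → d ∈ D.CU := by
    intro h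
    rw [cf] at h
    have hne : (D.blade.filter (fun t => d ∈ D.inc t)).Nonempty := by
      rw [← card_pos]; omega
    obtain ⟨t, ht⟩ := hne
    rw [mem_filter] at ht
    rw [CU, mem_filter]
    exact ⟨hd, hU, Or.inl ⟨t, ht.1, ht.2⟩⟩
  by_cases hs : d ∈ D.St
  · have h6 : D.cf D.R d = 1 := by
      have := D.stub_one d hs
      rw [cf, R]
      convert this
    by_cases ho : D.outB d
    · have h7 : D.cf D.blade d = 0 := by
        rw [cf, card_eq_zero, filter_eq_empty_iff]
        intro t ht
        exact D.U_blades_out d hs hU ho t ht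
      have h8 : d ∈ D.CU := by
        rw [CU, mem_filter]
        exact ⟨hd, hU, Or.inr ⟨hs, ho⟩⟩
      rw [if_pos h8]
      omega
    · have h8 : d ∈ D.Ubs := by
        rw [Ubs, mem_filter]
        exact ⟨hs, hU, ho⟩
      rw [if_pos h8]
      by_cases h9 : D.cf D.blade d = 1
      · rw [if_pos (h5 h9)]
        omega
      · omega
  · have h6 : D.cf D.R d = 2 := by
      have := D.inner_two d hd hs
      rw [cf, R]
      convert this
    by_cases h9 : D.cf D.blade d = 1
    · rw [if_pos (h5 h9)]
      omega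
    · omega

lemma local_D2 (d : δ) (hd : d ∈ D.D2) (hb : d ∉ D.bad) :
    1 ≤ D.uf d + D.ef d + (if d ∈ D.Pbs then 1 else 0) := by
  classical
  rw [D2, mem_biUnion] at hd
  obtain ⟨w, hw, hdw⟩ := hd
  rw [mem_filter] at hw
  obtain ⟨hwV, hw2⟩ := hw
  obtain ⟨t, htR, ht⟩ := D.host w hwV hw2
  have ht' : D.A w ⊆ D.inc t := ht
  have hH : D.Hosts t := ⟨w, hwV, hw2, ht'⟩
  have hdD : d ∈ D.Dg := (mem_filter.1 hdw).1
  rw [mem_union, mem_union] at htR
  rcases htR with (h | h) | h
  · have : 0 < D.uf d := by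
      rw [uf, card_pos]
      refine ⟨t, ?_⟩
      rw [mem_filter]
      exact ⟨h, ht' hdw, Or.inr (Or.inl ⟨w, hwV, hw2, ht', hdw⟩)⟩
    omega
  · have hA : D.A w = D.inc t := by
      apply eq_of_subset_of_card_le ht'
      rw [hw2, (D.inc_blade t h).2]
    have hpr := D.pair_ready t h ⟨w, hwV, hA⟩
    by_cases hact : D.act t d
    · by_cases hs : d ∈ D.St
      · have : d ∈ D.Pbs := by
          rw [Pbs, mem_filter]
          exact ⟨hs, t, h, ht' hdw, hH, hact⟩
        rw [if_pos this]
        omega
      · obtain ⟨s, hs1, hs2⟩ := D.act_face t h d (ht' hdw) hs hact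
        have : 0 < D.uf d := by
          rw [uf, card_pos]
          refine ⟨s, ?_⟩
          rw [mem_filter]
          exact ⟨hs1, hs2, Or.inr (Or.inr ⟨t, h, ht' hdw, hH, hact⟩)⟩
        omega
    · exfalso
      apply hb
      rw [bad, mem_filter]
      rcases hpr with hpr | ⟨h1, h2⟩
      · exact absurd (hpr d (ht' hdw)) hact
      · exact ⟨hdD, t, h1, h, ht' hdw, hact, h2⟩
  · have : 0 < D.ef d := by
      rw [ef, card_pos]
      refine ⟨t, ?_⟩
      rw [mem_filter]
      exact ⟨h, ht' hdw, Or.inr hH⟩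
    omega

/-- THE COUNTING INEQUALITY -/
theorem count : D.unused.card + 2 * D.zeros.card ≤
    D.St.card + D.CU.card + D.CP.card + D.Ecost.card + D.Ubs.card + D.Pbs.card := by
  classical
  have h1 := D.slots_eq
  have h2 := D.sum_uf
  have h3 := D.sum_ef
  have h4 := D.card_bad
  have hsub : ∀ X : Finset δ, X ⊆ D.Dg → ∑ d ∈ D.Dg, (if d ∈ X then 1 else 0) = X.card := by
    intro X hX
    rw [← card_filter]
    congr 1
    ext d
    rw [mem_filter]
    exact ⟨fun h => h.2, fun h => ⟨hX h, h⟩⟩
  have e1 := hsub D.CU (filter_subset _ _)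
  have e2 := hsub D.Ubs ((filter_subset _ _).trans D.St_sub)
  have e3 := hsub D.Pbs ((filter_subset _ _).trans D.St_sub)
  have e4 := hsub D.bad (filter_subset _ _)
  have e5 := hsub D.DU (filter_subset _ _)
  have hD2 : D.D2 ⊆ D.Dg := by
    intro d hd
    rw [D2, mem_biUnion] at hd
    obtain ⟨w, _, h⟩ := hd
    exact (mem_filter.1 h).1
  have e6 := hsub D.D2 hD2
  have key : ∑ d ∈ D.Dg, (2 * (if d ∈ D.DU then 1 else 0) + (if d ∈ D.D2 then 1 else 0)) ≤
      ∑ d ∈ D.Dg, (D.uf d + D.ef d + (if d ∈ D.CU then 1 else 0) + (if d ∈ D.Ubs then 1 else 0) +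
        (if d ∈ D.Pbs then 1 else 0) + (if d ∈ D.bad then 1 else 0)) := by
    refine sum_le_sum (fun d hd => ?_)
    cases h : D.bl d with
    | none =>
      have h5 := D.local_U d hd h
      have h6 : d ∉ D.D2 := by
        intro h'
        rw [D2, mem_biUnion] at h'
        obtain ⟨w, _, h''⟩ := h'
        have := (mem_filter.1 h'').2
        rw [h] at this
        exact absurd this (by simp)
      rw [if_neg h6]
      split_ifs at * <;> omega
    | some w =>
      have h6 : d ∉ D.DU := by
        intro h'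
        have := (mem_filter.1 h').2
        rw [h] at this
        exact absurd this (by simp)
      rw [if_neg h6]
      by_cases h7 : d ∈ D.D2
      · by_cases h8 : d ∈ D.bad
        · rw [if_pos h7, if_pos h8]
          omega
        · have h9 := D.local_D2 d h7 h8
          rw [if_pos h7]
          split_ifs at * <;> omega
      · rw [if_neg h7]
        omega
  simp only [sum_add_distrib, ← mul_sum] at key
  omega

end Reg

end Pool.Agent.Helper41.AG7
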