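import Pool.Agent.Helper41.AG7.OfMin

/-!
# AG section 7: alternative (x) in the form `Alt1`, `Alt2` from the angle statements of section 8
-/

set_option autoImplicit false
set_option linter.unusedSectionVars false
open Finset

namespace Pool.Agent.Helper41.AG7

open AG AG.Obj Pool.Agent.Helper29.AG7

variable {I : Type} [DecidableEq I] {S : Obj I} {pt : Sd I → Pt} {w0 w0' : Sd I}

theorem rot_ne_unrot (a : Sd I) : rot a ≠ unrot a := by
  intro h
  have h1 : rot (rot a) = a := by rw [h, rot_unrot]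
  rw [rot_rot] at h1
  exact unrot_ne a h1

namespace Six

variable (h : Six S pt w0 w0')
include h

theorem w0_out : w0.1 ∉ S.pB pt w0 w0' := h.d0 w0 h.pr.b (Eqv.refl _ _)

theorem w0'_out : w0'.1 ∉ S.pB pt w0 w0' := h.d0 w0' h.pr.b' h.pr.eqv

theorem w_ne : w0.1 ≠ w0'.1 := by
  intro e
  have h1 := h.base.one _ _ h.pr.b h.pr.b' e
  have h2 := h.pr.lt
  rw [h1] at h2
  omega

/-- alternative (x) at the stub `b` -/
theorem alt1 (hr : S.VirtB pt w0' → S.IsU pt (unrot w0') → S.Face (S.g (unrot w0')).1 →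
      Real.pi ≤ cang pt (S.g (rot w0')) + cang pt (unrot w0') + cang pt (rot (S.g (unrot w0'))))
    (hU : S.IsU pt (S.hi pt w0')) (hnb : ¬ ∃ c, c.1 = (S.g (S.hi pt w0')).1 ∧ S.Blade c) :
    Alt1 S pt (S.pB pt w0 w0') (S.hi pt w0') := by
  have hgb := h.g_hi
  have hbg : S.g (unrot w0') = S.hi pt w0' := by rw [← hgb, S.invol]
  have hbX := h.b_mem
  have hgl : S.g (S.hi pt w0') ≠ S.hi pt w0' := hU.1
  have hout : (S.g (S.hi pt w0')).1 ∉ S.pB pt w0 w0' := by
    rw [hgb, unrot_fst]; exact h.w0'_out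
  have hB : S.VirtB pt w0' := by
    rcases h.pr.b' with h1 | h1 | h1
    · exact absurd ⟨w0', by rw [hgb, unrot_fst], h1⟩ hnb
    · exact absurd h1 h.nA'
    · exact h1
  have hface : S.Face (S.hi pt w0').1 := by
    rcases h.op.f1 with h1 | h1
    · exact h1
    · exfalso
      have h2 : S.Face (S.g (S.hi pt w0')).1 := h.s1 _ _ h1 (rot_fst _).symm hU
      exact h.no_vir_out hgl hbX hout (vir_of_cand (cand_of_U h1 (rot_fst _).symm hU h2))
  have hU' : S.IsU pt (unrot w0') := by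
    rw [← hgb]
    have h1 := AG.Geo.isU_iff.1 hU
    refine AG.Geo.isU_iff.2 ⟨?_, h1.2.2, ?_⟩
    · rw [S.invol]; exact h1.1.symm
    · rw [S.invol]; exact h1.2.1
  have hang := hr hB hU' (by rw [hbg]; exact hface)
  refine ⟨hface, ?_, ?_, ?_, ?_⟩
  · rw [hgb, unrot_unrot]; exact hB.glued_rot
  · rw [hgb, unrot_unrot]
    intro h1
    have h2 : S.g (rot w0') ∈ S.bd (S.pB pt w0 w0') := by
      refine mem_bd.2 ⟨?_, h1, ?_⟩
      · rw [S.invol]; exact hB.glued_rot.symm
      · rw [S.invol, rot_fst]; exact h.w0'_out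
    rw [h.bd, mem_insert, mem_singleton] at h2
    rcases h2 with h2 | h2
    · have h3 : rot w0' = unrot w0' := by rw [← hgb, ← h2, S.invol]
      exact rot_ne_unrot _ h3
    · have h3 : rot w0' = w0 := by
        have := S.g_injective h2
        rw [this, h.lo_eq]
      exact h.w_ne (by rw [← h3]; rfl)
  · rw [hgb, unrot_unrot]
    have h1 := hB.blade.2.2.1
    rwa [rot_rot] at h1
  · rw [hgb, unrot_unrot]
    rw [hbg] at hang
    linarith

/-- alternative (x) at the stub `b'` -/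
theorem alt2 (hl : S.VirtA pt w0 → S.IsU pt w0 → S.Face (S.g w0).1 →
      Real.pi ≤ cang pt (rot (S.g (rot w0))) + cang pt (rot w0) + cang pt (S.g w0))
    (hU : S.IsU pt (S.g (S.lo pt w0))) (hnb : ¬ ∃ c, c.1 = (S.g (S.g (S.lo pt w0))).1 ∧ S.Blade c) :
    Alt2 S pt (S.pB pt w0 w0') (S.g (S.lo pt w0)) := by
  have hlo := h.lo_eq
  have hbX := h.b'_mem
  rw [S.invol] at hnb
  rw [hlo] at hU hnb hbX ⊢
  have hgl : S.g (S.g w0) ≠ S.g w0 := hU.1
  have hout : (S.g (S.g w0)).1 ∉ S.pB pt w0 w0' := by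
    rw [S.invol]; exact h.w0_out
  have hA : S.VirtA pt w0 := by
    rcases h.pr.b with h1 | h1 | h1
    · exact absurd ⟨w0, rfl, h1⟩ hnb
    · exact h1
    · exact absurd h1 h.nB
  have hface : S.Face (S.g w0).1 := by
    have hf := h.op.f2
    rw [hlo] at hf
    rcases hf with h1 | h1
    · exact h1
    · exfalso
      have h2 : S.Face (S.g (S.g w0)).1 := h.s1 _ _ h1 rfl hU
      exact h.no_vir_out hgl hbX hout (vir_of_cand (cand_of_U h1 rfl hU h2))
  have hU' : S.IsU pt w0 := by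
    have h1 := AG.Geo.isU_iff.1 hU
    refine AG.Geo.isU_iff.2 ⟨?_, ?_, h1.2.1⟩
    · have := h1.1; rw [S.invol] at this; exact this.symm
    · have := h1.2.2; rwa [S.invol] at this
  have hang := hl hA hU' hface
  refine ⟨hface, ?_, ?_, ?_, ?_⟩
  · rw [S.invol]; exact hA.glued_rot
  · rw [S.invol]
    intro h1
    have h2 : S.g (rot w0) ∈ S.bd (S.pB pt w0 w0') := by
      refine mem_bd.2 ⟨?_, h1, ?_⟩
      · rw [S.invol]; exact hA.glued_rot.symm
      · rw [S.invol, rot_fst]; exact h.w0_out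
    rw [h.bd, mem_insert, mem_singleton] at h2
    rcases h2 with h2 | h2
    · have h3 : rot w0 = unrot w0' := by rw [← h.g_hi, ← h2, S.invol]
      have h4 : (rot w0).1 = w0'.1 := by rw [h3]; rfl
      exact h.w_ne h4
    · have h3 : rot w0 = w0 := by
        have := S.g_injective h2
        rw [this, h.lo_eq]
      exact rot_ne w0 h3
  · rw [S.invol]; exact hA.blade.2.2.1
  · rw [S.invol]
    linarith

end Six

end Pool.Agent.Helper41.AG7
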