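import Pool.Agent.Helper41.AG7.OfMin

/-!
# AG section 7: `CU + CP ≤ Cand_R`
-/

set_option autoImplicit false
set_option linter.unusedSectionVars false
open Finset

namespace Pool.Agent.Helper41.AG7

open AG AG.Obj Pool.Agent.Helper29.AG7

variable {I : Type} [DecidableEq I] {S : Obj I} {pt : Sd I → Pt} {X : Finset I} {V : Sd I → Prop}

theorem isU_of_none {a : Sd I} (hg : S.g a ≠ a) (h : bl S X (S.Blk pt) (dg S a) = none) :
    S.IsU pt a := by
  have h1 := bl_none.1 h
  exact AG.Geo.isU_iff.2 ⟨hg, h1.1, h1.2⟩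

theorem isU_g {a : Sd I} (h : S.IsU pt a) : S.IsU pt (S.g a) := by
  have h1 := AG.Geo.isU_iff.1 h
  refine AG.Geo.isU_iff.2 ⟨?_, h1.2.2, ?_⟩
  · rw [S.invol]; exact h1.1.symm
  · rw [S.invol]; exact h1.2.1

theorem mem_candK {w : Sd I} (h : S.Vir pt w) (h1 : w.1 ∈ X) (h2 : ¬ V w) :
    w ∈ S.CandK pt X V := by
  classical
  rw [CandK, mem_filter, mem_sides]
  exact ⟨h.bladeAt.memF, h, h1, h2⟩

/-- `hV`: a blade at `V` has its triangle outside the region; `hout`: no virtual blade in the triangle outside a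
stub, at the corner opposite to the stub -/
theorem cand_le (H : RHyp S pt X) (hV : ∀ u, S.BladeAt pt u → V u → u.1 ∉ X)
    (hout : ∀ a, S.g a ≠ a → a.1 ∈ X → (S.g a).1 ∉ X → ¬ S.Vir pt (unrot (S.g a))) :
    H.reg.CU.card + H.reg.CP.card ≤ (S.CandK pt X V).card := by
  classical
  have hmem : ∀ {a : Sd I}, S.g a ≠ a → S.Cand pt a → a.1 ∈ X ∨ (S.g a).1 ∈ X →
      unrot (S.g a) ∈ S.CandK pt X V := by
    intro a hg hc hX
    have hv := vir_of_cand hc
    have h1 : (unrot (S.g a)).1 ∈ X := by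
      rw [unrot_fst]
      by_contra h1
      exact hout a hg (hX.resolve_right h1) h1 hv
    exact mem_candK hv h1 (fun h2 => hV _ hv.bladeAt h2 h1)
  have key1 : H.reg.CU ⊆ ((S.CandK pt X V).filter (fun w => S.IsU pt (rot w))).image
      (fun w => dg S (rot w)) := by
    intro d hd
    rw [Reg.CU, mem_filter] at hd
    obtain ⟨hD, hn, hd⟩ := hd
    rw [mem_image]
    -- the side of the blade
    have hex : ∃ c a, S.Blade c ∧ a.1 = c.1 ∧ S.g a ≠ a ∧ dg S a = d ∧
        (a.1 ∈ X ∨ (S.g a).1 ∈ X) := by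
      rcases hd with ⟨t, ht, hdt⟩ | ⟨_, hdo⟩
      · obtain ⟨htX, c, hc1, hc2⟩ := mem_blades.1 (show t ∈ blades S X from ht)
        obtain ⟨a, ha1, ha2, ha3⟩ := mem_inc.1 (show d ∈ inc S t from hdt)
        exact ⟨c, a, hc2, by rw [ha1, hc1], ha2, ha3.symm, Or.inl (by rw [ha1]; exact htX)⟩
      · obtain ⟨a, h1, h2, h3, h4, c, hc1, hc2⟩ := (show outB S X d from hdo)
        exact ⟨c, S.g a, hc2, hc1.symm, by rw [S.invol]; exact h3.symm, by rw [dg_g, h4],
          Or.inr (by rw [S.invol]; exact h1)⟩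
    obtain ⟨c, a, hc, hac, hg, had, hX⟩ := hex
    have hU : S.IsU pt a := isU_of_none (X := X) hg (by rw [had]; exact hn)
    have hf := H.s1 c a hc hac hU
    refine ⟨unrot (S.g a), mem_filter.2 ⟨hmem hg (cand_of_U hc hac hU hf) hX, ?_⟩, ?_⟩
    · rw [rot_unrot]; exact isU_g hU
    · rw [rot_unrot, dg_g, had]
  have key2 : H.reg.CP ⊆ ((S.CandK pt X V).filter (fun w => ¬ S.IsU pt (rot w))).image
      (fun w => (S.g (rot w)).1) := by
    intro t ht
    have ht' : t ∈ CPs S pt X := ht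
    rw [CPs, mem_filter] at ht'
    obtain ⟨htb, c, a, b, hct, hc, hp, hab, hf, hfX, hnf⟩ := ht'
    have hg : S.g a ≠ a := by
      rcases hab with ⟨rfl, _⟩ | ⟨rfl, _⟩
      · exact hc.1
      · exact hc.2.1
    have hat : a.1 = t := by
      rcases hab with ⟨rfl, _⟩ | ⟨rfl, _⟩
      · exact hct
      · rw [unrot_fst]; exact hct
    rw [mem_image]
    refine ⟨unrot (S.g a), mem_filter.2 ⟨hmem hg (cand_of_pair hc hp hab hf hnf) (Or.inr hfX), ?_⟩, ?_⟩
    · rw [rot_unrot]
      intro hU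
      have hU' := isU_g hU
      rw [S.invol] at hU'
      have hU2 := AG.Geo.isU_iff.1 hU'
      rcases hab with ⟨rfl, _⟩ | ⟨rfl, _⟩
      · exact hU2.2.1 hp.1
      · exact hU2.2.2 hp.2
    · rw [rot_unrot, S.invol, hat]
  have h1 := (card_le_card key1).trans card_image_le
  have h2 := (card_le_card key2).trans card_image_le
  have h3 := card_filter_add_card_filter_not (s := S.CandK pt X V) (fun w => S.IsU pt (rot w))
  omega

end Pool.Agent.Helper41.AG7
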