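import Pool.Agent.AG.Reg.Out

/-!
# AG section 7: 7.5 (the visits `a_i` are no ear ends of the region) and 7.2

`X` is the open region, `bd X = {b, b'}`, the stub `b` starts at `v0` (corner `b`), the stub `b'` ends at `v0`
(corner `rot b'`).  `a_1` = corner `rot b`, `a_2` = corner `b'`.
-/

set_option autoImplicit false
set_option linter.unusedSectionVars false
open Finset

namespace Pool.Agent.Helper41.AG7

open AG AG.Obj

variable {I : Type} [DecidableEq I]

/-- the open region with the facts of block 6 (D2); `V` = the visit `v0` -/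
structure RD (S : Obj I) (pt : Sd I → Pt) (X : Finset I) (V : Sd I → Prop) (b b' : Sd I) : Prop where
  base : Base S pt
  sub : X ⊆ S.F
  hV : ∀ z, V z ↔ S.Eqv b z
  bd : S.bd X = {b, b'}
  eqv : S.Eqv b (rot b')
  psl : S.ps (rot b') < S.ps b
  bl0 : ∃ u, S.BladeAt pt u ∧ S.Eqv b u
  d0 : ∀ u, S.BladeAt pt u → S.Eqv b u → u.1 ∉ X
  dv : ∀ w, S.Vir pt w → w.1 ∈ X → ∃ p ∈ S.CP pt X V, w.1 ∈ S.pA pt p.1 p.2
  de : ∀ c, S.Eared c → c.1 ∈ X → ∃ p ∈ S.CP pt X V, c.1 ∈ S.pA pt p.1 p.2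
  pAsub : ∀ p ∈ S.CP pt X V, S.pA pt p.1 p.2 ⊆ X

variable {S : Obj I} {pt : Sd I → Pt} {X : Finset I} {V : Sd I → Prop} {b b' : Sd I}

theorem cp_cons {p : Sd I × Sd I} (h : p ∈ S.CP pt X V) :
    S.Cons pt p.1 p.2 ∧ p.1.1 ∈ X ∧ p.2.1 ∈ X ∧ ¬ V p.1 := by
  classical
  rw [CP, mem_filter] at h
  exact h.2

namespace RD

variable (Q : RD S pt X V b b')
include Q

theorem lin : S.Linear := Q.base.lin

theorem bX : b.1 ∈ X ∧ (S.g b).1 ∉ X ∧ S.g b ≠ b := by
  have h : b ∈ S.bd X := by rw [Q.bd]; exact mem_insert_self _ _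
  obtain ⟨h1, h2, h3⟩ := mem_bd.1 h
  exact ⟨h2, h3, h1⟩

theorem bX' : b'.1 ∈ X ∧ (S.g b').1 ∉ X ∧ S.g b' ≠ b' := by
  have h : b' ∈ S.bd X := by rw [Q.bd]; exact mem_insert_of_mem (mem_singleton_self _)
  obtain ⟨h1, h2, h3⟩ := mem_bd.1 h
  exact ⟨h2, h3, h1⟩

/-- the ends of a glued side are different visits -/
theorem ends {a : Sd I} (ha : a.1 ∈ S.F) : ¬ S.Eqv a (rot a) := Q.base.loopless a ha

theorem b_rb : ¬ S.Eqv b (rot b) := Q.ends (Q.sub Q.bX.1)
theorem b'_rb' : ¬ S.Eqv b' (rot b') := Q.ends (Q.sub Q.bX'.1)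

theorem rb_gb : S.Eqv (rot b) (S.g b) := Eqv.of_glued' Q.bX.2.2
theorem rb'_gb' : S.Eqv (rot b') (S.g b') := Eqv.of_glued' Q.bX'.2.2
theorem b'_rgb' : S.Eqv b' (rot (S.g b')) := Eqv.of_glued Q.bX'.2.2

/-- `a_1 ≠ a_2` -/
theorem a_ne : ¬ S.Eqv (rot b) b' := by
  intro h
  have h1 : b = S.g b' := by
    apply Q.base.seg b (S.g b') Q.bX.2.2 (g_ne_iff.2 Q.bX'.2.2)
    · exact Q.eqv.trans Q.rb'_gb'
    · exact h.trans Q.b'_rgb'
  have := Q.bX'.2.1
  rw [← h1] at this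
  exact this Q.bX.1

theorem ps_gb : S.ps (S.g b) = S.ps (rot b) + 1 := by
  have h := ps_of_glued Q.lin (a := S.g b) (g_ne_iff.2 Q.bX.2.2)
  rwa [cw_of_glued (g_ne_iff.2 Q.bX.2.2), S.invol] at h

theorem ps_gb' : S.ps (S.g b') = S.ps (rot b') + 1 := by
  have h := ps_of_glued Q.lin (a := S.g b') (g_ne_iff.2 Q.bX'.2.2)
  rwa [cw_of_glued (g_ne_iff.2 Q.bX'.2.2), S.invol] at h

theorem ps_b' : S.ps b' = S.ps (rot (S.g b')) + 1 := by
  have h := ps_of_glued Q.lin (a := b') Q.bX'.2.2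
  rwa [cw_of_glued Q.bX'.2.2] at h

/-- a crossing of the boundary is at one of the four ends -/
theorem cross4 {c : Sd I} (hg : S.g c ≠ c) (h : ¬ (c.1 ∈ X ↔ (S.g c).1 ∈ X)) :
    c = b ∨ c = b' ∨ c = S.g b ∨ c = S.g b' := by
  rcases mem_bd_or hg h with h1 | h1
  · rw [Q.bd, mem_insert, mem_singleton] at h1
    rcases h1 with h1 | h1
    · exact Or.inl h1
    · exact Or.inr (Or.inl h1)
  · rw [Q.bd, mem_insert, mem_singleton] at h1
    rcases h1 with h1 | h1
    · right; right; left; rw [← h1, S.invol]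
    · right; right; right; rw [← h1, S.invol]

/-- the part of the region in the fan of `a_1` is below `rot b` -/
theorem part1 {e : Sd I} (he : S.Eqv (rot b) e) (hX : e.1 ∈ X) : S.ps e ≤ S.ps (rot b) := by
  by_contra hlt
  have h0 := Q.ps_gb
  have h1 : S.Eqv (S.g b) e := Q.rb_gb.symm.trans he
  obtain ⟨c, hc1, hc2, hc3, hc4, hc5, hc6⟩ := exists_cross Q.lin h1 (by omega)
    (X := X) (fun h => Q.bX.2.1 (h.2 hX))
  have hcb : S.Eqv (rot b) c := Q.rb_gb.trans hc1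
  rcases Q.cross4 hc2 hc5 with h | h | h | h
  · rw [h] at hcb; exact Q.b_rb hcb.symm
  · rw [h] at hcb; exact Q.a_ne hcb
  · rw [h] at hc3; omega
  · rw [h] at hcb
    exact Q.b_rb ((Q.eqv.trans Q.rb'_gb').trans hcb.symm)

/-- the part of the region in the fan of `a_2` is above `b'` -/
theorem part2 {e : Sd I} (he : S.Eqv b' e) (hX : e.1 ∈ X) : S.ps b' ≤ S.ps e := by
  by_contra hlt
  have h0 := Q.ps_b'
  have h1 : S.Eqv e (rot (S.g b')) := he.symm.trans Q.b'_rgb'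
  obtain ⟨c, hc1, hc2, hc3, hc4, hc5, hc6⟩ := exists_cross Q.lin h1 (by omega)
    (X := X) (fun h => Q.bX'.2.1 (by have := h.1 hX; rwa [rot_fst] at this))
  have hcb : S.Eqv b' c := he.trans hc1
  rcases Q.cross4 hc2 hc5 with h | h | h | h
  · rw [h] at hcb
    exact Q.b'_rb' (hcb.trans Q.eqv)
  · rw [h] at hc4; omega
  · rw [h] at hcb; exact Q.a_ne (Q.rb_gb.trans hcb.symm)
  · rw [h] at hcb; exact Q.b'_rb' (hcb.trans Q.rb'_gb'.symm)

/-- the outer part above `b` -/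
theorem up {f : Sd I} (hf : S.Eqv b f) (hp : S.ps b ≤ S.ps f) : f.1 ∈ X := by
  by_contra hX
  obtain ⟨c, hc1, hc2, hc3, hc4, hc5, hc6⟩ := exists_cross Q.lin hf hp
    (X := X) (fun h => hX (h.1 Q.bX.1))
  rcases Q.cross4 hc2 hc5 with h | h | h | h
  · rw [h] at hc3; omega
  · rw [h] at hc1; exact Q.b'_rb' (hc1.symm.trans Q.eqv)
  · rw [h] at hc1; exact Q.b_rb (hc1.trans Q.rb_gb.symm)
  · rw [h] at hc3
    have h1 := Q.ps_gb'
    have h2 := Q.psl
    omega

/-- the outer part below `rot b'` -/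
theorem down {f : Sd I} (hf : S.Eqv b f) (hp : S.ps f ≤ S.ps (rot b')) : f.1 ∈ X := by
  by_contra hX
  have h0 : S.Eqv f (rot b') := hf.symm.trans Q.eqv
  obtain ⟨c, hc1, hc2, hc3, hc4, hc5, hc6⟩ := exists_cross Q.lin h0 hp
    (X := X) (fun h => hX (h.2 (by rw [rot_fst]; exact Q.bX'.1)))
  have hcb : S.Eqv b c := hf.trans hc1
  rcases Q.cross4 hc2 hc5 with h | h | h | h
  · rw [h] at hc4
    have := Q.psl
    omega
  · rw [h] at hcb; exact Q.b'_rb' (hcb.symm.trans Q.eqv)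
  · rw [h] at hcb; exact Q.b_rb (hcb.trans Q.rb_gb.symm)
  · rw [h, Q.ps_gb'] at hc4
    omega

/-- if `s_1` is in a child then the child is at the visit `a_1` -/
theorem child1 {p : Sd I × Sd I} (hp : p ∈ S.CP pt X V) (hm : b.1 ∈ S.pA pt p.1 p.2) :
    ∃ u, S.BladeAt pt u ∧ S.Eqv (rot b) u := by
  obtain ⟨h1, _, _, h4⟩ := cp_cons hp
  have hin := Q.base.isIn_pA h1.toPr
  have h5 : b ∈ S.bd (S.pA pt p.1 p.2) :=
    mem_bd.2 ⟨Q.bX.2.2, hm, fun h => Q.bX.2.1 (Q.pAsub p hp h)⟩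
  rw [hin.bd, mem_insert, mem_singleton] at h5
  rcases h5 with h5 | h5
  · exfalso
    apply h4
    rw [Q.hV, h5]
    exact h1.b.eqv_hi.symm
  · have h6 : S.g b = S.lo pt p.2 := by rw [h5, S.invol]
    exact ⟨p.2, h1.b', (Q.rb_gb.trans (by rw [h6]; exact h1.b'.eqv_lo.symm))⟩

theorem child2 {p : Sd I × Sd I} (hp : p ∈ S.CP pt X V) (hm : b'.1 ∈ S.pA pt p.1 p.2) :
    ∃ u, S.BladeAt pt u ∧ S.Eqv b' u := by
  obtain ⟨h1, _, _, h4⟩ := cp_cons hp
  have hin := Q.base.isIn_pA h1.toPr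
  have h5 : b' ∈ S.bd (S.pA pt p.1 p.2) :=
    mem_bd.2 ⟨Q.bX'.2.2, hm, fun h => Q.bX'.2.1 (Q.pAsub p hp h)⟩
  rw [hin.bd, mem_insert, mem_singleton] at h5
  rcases h5 with h5 | h5
  · exact ⟨p.1, h1.b, by rw [h5]; exact h1.b.eqv_hi.symm⟩
  · exfalso
    apply h4
    rw [Q.hV]
    have h6 : S.g b' = S.lo pt p.2 := by rw [h5, S.invol]
    have h7 : S.Eqv b p.2 := (Q.eqv.trans Q.rb'_gb').trans (by rw [h6]; exact h1.b'.eqv_lo.symm)
    exact h7.trans h1.eqv.symm

/-- 7.5 at `a_1` -/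
theorem ear1 {c e : Sd I} (hc : S.Eared c) (hcX : c.1 ∈ X) (hec : e = rot c ∨ e = unrot c)
    (he : S.Eqv (rot b) e) : False := by
  have heX : e.1 ∈ X := by rcases hec with h | h <;> rw [h] <;> exact hcX
  have hend : S.EarEnd e := by
    refine ⟨rot c, hc.2.2, ?_⟩
    rcases hec with h | h
    · left; rw [h]; exact Eqv.refl _ _
    · right; rw [h, rot_rot]; exact Eqv.refl _ _
  have noB : ∀ u, S.BladeAt pt u → ¬ S.Eqv (rot b) u := fun u hu h =>
    Q.base.earEnd e u hend hu (he.symm.trans h)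
  have hps := Q.part1 he heX
  have hgb : S.Eqv e (S.g b) := he.symm.trans Q.rb_gb
  have hgbp := Q.ps_gb
  -- `e` is the clockwise end
  have he' : e = rot c := by
    rcases hec with h | h
    · exact h
    · exfalso
      have h1 := unrot_glued_of_lt Q.lin hgb (by omega)
      rw [h, unrot_unrot] at h1
      exact h1 (S.earFree _ hc.2.2)
  have hpe : S.ps e = 0 := by rw [he']; exact ps_of_unglued (S.earFree _ hc.2.2)
  obtain ⟨p, hp, hcp⟩ := Q.de c hc hcX
  obtain ⟨h1, _, _, h4⟩ := cp_cons hp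
  have hin := Q.base.isIn_pA h1.toPr
  have hr2 := hin.reg2
  have heK : e.1 ∈ S.pA pt p.1 p.2 := by rw [he']; exact hcp
  have hdK : (rot b).1 ∉ S.pA pt p.1 p.2 := fun h => by
    obtain ⟨u, hu1, hu2⟩ := Q.child1 hp h
    exact noB u hu1 hu2
  have hne : ¬ S.Eqv (S.hi pt p.1) e := fun h =>
    Q.base.earEnd e p.1 hend h1.b (h1.b.eqv_hi.trans h).symm
  rcases hr2.outside Q.base hne heK he.symm hdK with ⟨h5, h6⟩ | ⟨h5, h6⟩
  · -- the fan would cross the boundary twice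
    obtain ⟨c1, k1, k2, k3, k4, k5, k6⟩ := exists_cross Q.lin he.symm
      (by omega) (X := S.pA pt p.1 p.2) (fun h => hdK (h.1 heK))
    have k7 : c1.1 ∉ S.pA pt p.1 p.2 := fun h => hdK (k6.1 h)
    have k8 : (S.g c1).1 ∈ S.pA pt p.1 p.2 := by
      by_contra h
      exact k5 ⟨fun h' => absurd h' k7, fun h' => absurd h' h⟩
    have k9 := hr2.entry Q.base (fun h => hne (h.trans k1.symm)) k2 k7 k8
    apply hr2.not_both Q.base
    rw [← k9]
    exact h5.symm.trans k1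
  · rcases Q.base.out_lower h1.b hr2 (h5.symm.trans he.symm) hdK with
      ⟨k1, k2⟩ | ⟨k1, k2⟩ | ⟨k1, k2⟩
    · have k3 : b = rot p.1 := by
        apply rot_injective
        rw [k2, rot_rot]
      exact Q.bX.2.2 (by rw [k3]; exact k1.2.2.1)
    · rcases k2 with k2 | k2
      · have k3 : b = rot p.1 := by
          apply rot_injective
          rw [k2, rot_rot]
        have k4 : p.1.1 = b.1 := by rw [k3]; rfl
        obtain ⟨q, hq, hq'⟩ := Q.dv p.1 (Or.inr k1) (by rw [k4]; exact Q.bX.1)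
        rw [k4] at hq'
        obtain ⟨u, hu1, hu2⟩ := Q.child1 hq hq'
        exact noB u hu1 hu2
      · have k3 := k1.blade.2.2.1
        rw [rot_rot, ← k2, unrot_rot] at k3
        exact Q.bX.2.2 k3
    · rcases k2 e he heK with k3 | k3
      · have k4 : c = p.1 := rot_injective (he'.symm.trans k3)
        rw [k4] at hc
        exact hc.not_face k1.face
      · have k4 : c = S.g (rot p.1) := rot_injective (he'.symm.trans k3)
        exact k1.blade.not_eared hc (by rw [k4])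

/-- 7.5 at `a_2` -/
theorem ear2 {c e : Sd I} (hc : S.Eared c) (hcX : c.1 ∈ X) (hec : e = rot c ∨ e = unrot c)
    (he : S.Eqv b' e) : False := by
  have heX : e.1 ∈ X := by rcases hec with h | h <;> rw [h] <;> exact hcX
  have hend : S.EarEnd e := by
    refine ⟨rot c, hc.2.2, ?_⟩
    rcases hec with h | h
    · left; rw [h]; exact Eqv.refl _ _
    · right; rw [h, rot_rot]; exact Eqv.refl _ _
  have noB : ∀ u, S.BladeAt pt u → ¬ S.Eqv b' u := fun u hu h =>
    Q.base.earEnd e u hend hu (he.symm.trans h)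
  have hps := Q.part2 he heX
  have hb'p : 1 ≤ S.ps b' := (ps_pos_iff Q.lin).2 Q.bX'.2.2
  -- `e` is the counterclockwise end
  have he' : e = unrot c := by
    rcases hec with h | h
    · exfalso
      have : S.ps e = 0 := by rw [h]; exact ps_of_unglued (S.earFree _ hc.2.2)
      omega
    · exact h
  have htop : ∀ f, S.Eqv e f → S.ps f ≤ S.ps e := by
    intro f hf
    by_contra h
    have h1 := unrot_glued_of_lt Q.lin hf (by omega)
    rw [he', unrot_unrot] at h1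
    exact h1 (S.earFree _ hc.2.2)
  obtain ⟨p, hp, hcp⟩ := Q.de c hc hcX
  obtain ⟨h1, _, _, h4⟩ := cp_cons hp
  have hin := Q.base.isIn_pA h1.toPr
  have hr2 := hin.reg2
  have heK : e.1 ∈ S.pA pt p.1 p.2 := by rw [he']; exact hcp
  have hdK : b'.1 ∉ S.pA pt p.1 p.2 := fun h => by
    obtain ⟨u, hu1, hu2⟩ := Q.child2 hp h
    exact noB u hu1 hu2
  have hne : ¬ S.Eqv (S.hi pt p.1) e := fun h =>
    Q.base.earEnd e p.1 hend h1.b (h1.b.eqv_hi.trans h).symm
  rcases hr2.outside Q.base hne heK he.symm hdK with ⟨h5, h6⟩ | ⟨h5, h6⟩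
  · rcases Q.base.out_upper h1.b' hr2 (h5.symm.trans he.symm) hdK with
      ⟨k1, k2⟩ | ⟨k1, k2⟩ | ⟨k1, k2⟩
    · exact Q.bX'.2.2 (by rw [k2]; exact k1.2.2.1)
    · rcases k2 with k2 | k2
      · have k4 : p.2.1 = b'.1 := by rw [k2]; rfl
        obtain ⟨q, hq, hq'⟩ := Q.dv p.2 (Or.inl k1) (by rw [k4]; exact Q.bX'.1)
        rw [k4] at hq'
        obtain ⟨u, hu1, hu2⟩ := Q.child2 hq hq'
        exact noB u hu1 hu2
      · have k3 := k1.blade.2.2.1
        rw [← k2] at k3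
        exact Q.bX'.2.2 k3
    · rcases k2 e he heK with k3 | k3
      · have k4 : c = p.2 := by
          have h := he'.symm.trans k3
          rw [← rot_unrot c, h, rot_unrot]
        rw [k4] at hc
        exact hc.not_face k1.face
      · have k4 : S.g (rot p.2) = unrot c := k3.symm.trans he'
        have k5 := k1.blade
        rw [k4, rot_unrot] at k5
        exact k5.not_eared hc rfl
  · -- the fan would cross the boundary twice
    have hga : S.Eqv (S.g (S.hi pt p.1)) e := h5.symm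
    have hgaK : (S.g (S.hi pt p.1)).1 ∉ S.pA pt p.1 p.2 := (mem_bd.1 hin.mem_left).2.2
    obtain ⟨c1, k1, k2, k3, k4, k5, k6⟩ := exists_cross Q.lin hga
      (htop _ hga.symm) (X := S.pA pt p.1 p.2) (fun h => hgaK (h.2 heK))
    have k7 : c1.1 ∈ S.pA pt p.1 p.2 := k6.2 heK
    have k8 : (S.g c1).1 ∉ S.pA pt p.1 p.2 := fun h => k5 ⟨fun _ => h, fun _ => k7⟩
    have k9 := hr2.exit Q.base (fun h => hne (h.trans (k1.symm.trans hga))) k2 k7 k8
    apply hr2.not_both Q.base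
    rw [← k9]
    exact k1.symm

/-- no ear end at `v0` -/
theorem ear0 {c e : Sd I} (hc : S.Eared c) (hec : e = rot c ∨ e = unrot c)
    (he : S.Eqv b e) : False := by
  have hend : S.EarEnd e := by
    refine ⟨rot c, hc.2.2, ?_⟩
    rcases hec with h | h
    · left; rw [h]; exact Eqv.refl _ _
    · right; rw [h, rot_rot]; exact Eqv.refl _ _
  obtain ⟨u, hu1, hu2⟩ := Q.bl0
  exact Q.base.earEnd e u hend hu1 (he.symm.trans hu2)

/-- 7.2 at `b` -/
theorem f1 : S.Face b.1 ∨ S.Blade (rot b) := by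
  rcases Q.base.types (Q.sub Q.bX.1) with h | ⟨c, hc, h | h⟩
  · exact Or.inl h
  · right
    rcases eq_of_fst_eq hc with h1 | h1 | h1
    · rw [h1] at h
      exact absurd Q.bX.1 (Q.d0 b h.bladeAt (Eqv.refl _ _))
    · rw [← h1]; exact h
    · have h2 := h.2.2.1
      rw [h1, rot_unrot] at h2
      exact absurd h2 Q.bX.2.2
  · exfalso
    have hcX : c.1 ∈ X := by rw [hc]; exact Q.bX.1
    rcases eq_of_fst_eq hc with h1 | h1 | h1
    · exact Q.ear1 h hcX (Or.inl rfl) (by rw [h1]; exact Eqv.refl _ _)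
    · refine Q.ear0 h (e := unrot c) (Or.inr rfl) ?_
      rw [h1, unrot_rot]; exact Eqv.refl _ _
    · have h2 := S.earFree _ h.2.2
      rw [h1, rot_unrot] at h2
      exact Q.bX.2.2 h2

/-- 7.2 at `b'` -/
theorem f2 : S.Face b'.1 ∨ S.Blade b' := by
  rcases Q.base.types (Q.sub Q.bX'.1) with h | ⟨c, hc, h | h⟩
  · exact Or.inl h
  · right
    rcases eq_of_fst_eq hc with h1 | h1 | h1
    · rw [← h1]; exact h
    · have h2 : S.BladeAt pt (rot b') := by rw [← h1]; exact h.bladeAt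
      exact absurd (show (rot b').1 ∈ X from Q.bX'.1) (Q.d0 _ h2 Q.eqv)
    · have h2 := h.2.2.1
      rw [h1, rot_unrot] at h2
      exact absurd h2 Q.bX'.2.2
  · exfalso
    have hcX : c.1 ∈ X := by rw [hc]; exact Q.bX'.1
    rcases eq_of_fst_eq hc with h1 | h1 | h1
    · refine Q.ear0 h (e := rot c) (Or.inl rfl) ?_
      rw [h1]; exact Q.eqv
    · refine Q.ear2 h hcX (e := unrot c) (Or.inr rfl) ?_
      rw [h1, unrot_rot]; exact Eqv.refl _ _
    · have h2 := S.earFree _ h.2.2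
      rw [h1, rot_unrot] at h2
      exact Q.bX'.2.2 h2

end RD

end Pool.Agent.Helper41.AG7
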