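import Pool.Agent.Helper41.AG7.OpenBills
import Pool.Agent.Helper41.AG7.Ear
import Pool.Agent.AG.GeoMore

/-!
# AG section 7: the open region of the chosen pair `(w0, w0')`
-/

set_option autoImplicit false
set_option linter.unusedSectionVars false
open Finset

namespace Pool.Agent.Helper41.AG7

open AG AG.Obj Pool.Agent.Helper29.AG7

variable {I : Type} [DecidableEq I]

/-- the facts on `S` and on the region `X = pB w0 w0'` (D2 of block 6) -/
structure Six (S : Obj I) (pt : Sd I → Pt) (w0 w0' : Sd I) : Prop where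
  base : Base S pt
  geo : S.Geo pt
  s1 : ∀ c a, S.Blade c → a.1 = c.1 → S.IsU pt a → S.Face (S.g a).1
  s2 : ∀ c, S.Blade c → S.PairAt pt c → S.Face (S.g c).1 ∨ S.Face (S.g (unrot c)).1
  pr : S.Pr pt w0 w0'
  d0 : ∀ u, S.BladeAt pt u → S.Eqv w0 u → u.1 ∉ S.pB pt w0 w0'
  dv : ∀ w, S.Vir pt w → w.1 ∈ S.pB pt w0 w0' →
    ∃ p ∈ S.CP pt (S.pB pt w0 w0') (S.Eqv w0), w.1 ∈ S.pA pt p.1 p.2
  de : ∀ c, S.Eared c → c.1 ∈ S.pB pt w0 w0' →
    ∃ p ∈ S.CP pt (S.pB pt w0 w0') (S.Eqv w0), c.1 ∈ S.pA pt p.1 p.2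
  pAsub : ∀ p ∈ S.CP pt (S.pB pt w0 w0') (S.Eqv w0), S.pA pt p.1 p.2 ⊆ S.pB pt w0 w0'

/-- a candidate across `a` is a virtual blade at the corner opposite to the partner of `a` -/
theorem vir_of_cand {S : Obj I} {pt : Sd I → Pt} {a : Sd I} (h : S.Cand pt a) :
    S.Vir pt (unrot (S.g a)) := by
  have e : S.g (rot (unrot (S.g a))) = a := by rw [rot_unrot, S.invol]
  rcases h with h | h
  · left; rw [VirtA, e]; exact h
  · right; rw [VirtB, e]; exact h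

/-- candidate of pair type -/
theorem cand_of_pair {S : Obj I} {pt : Sd I → Pt} {c a b : Sd I} (hc : S.Blade c)
    (hp : S.PairAt pt c) (hab : (a = c ∧ b = unrot c) ∨ (a = unrot c ∧ b = c))
    (h1 : S.Face (S.g a).1) (h2 : ¬ S.Face (S.g b).1) : S.Cand pt a := by
  rcases hab with ⟨rfl, rfl⟩ | ⟨rfl, rfl⟩
  · exact Or.inl ⟨hc, ⟨hc.1, h1⟩, Or.inr ⟨hp, fun h => h2 h.2⟩⟩
  · right
    refine ⟨by rw [rot_unrot]; exact hc, ⟨hc.2.1, h1⟩, Or.inr ⟨by rw [rot_unrot]; exact hp, ?_⟩⟩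
    rw [rot_unrot]
    exact fun h => h2 h.2

/-- candidate of U type -/
theorem cand_of_U {S : Obj I} {pt : Sd I → Pt} {c a : Sd I} (hc : S.Blade c) (ha : a.1 = c.1)
    (hU : S.IsU pt a) (hf : S.Face (S.g a).1) : S.Cand pt a := by
  rcases eq_of_fst_eq ha with h | h | h
  · left; rw [h] at hU hf ⊢; exact ⟨hc, ⟨hU.1, hf⟩, Or.inl hU⟩
  · rw [h] at hU; exact absurd hc.2.2.1 hU.1
  · right
    have e : rot a = c := by rw [h, rot_unrot]
    exact ⟨by rw [e]; exact hc, ⟨hU.1, hf⟩, Or.inl hU⟩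

namespace Six

variable {S : Obj I} {pt : Sd I → Pt} {w0 w0' : Sd I} (h : Six S pt w0 w0')
include h

theorem isO : S.IsIn (S.lo pt w0) (S.hi pt w0') (S.pO pt w0 w0') := h.base.isIn_pO h.pr

theorem bd : S.bd (S.pB pt w0 w0') = {S.hi pt w0', S.g (S.lo pt w0)} := by
  rw [pB, bd_sdiff, inter_eq_right.2 h.isO.sub, h.isO.bd, image_insert, image_singleton, S.invol,
    pair_comm]

theorem b_mem : (S.hi pt w0').1 ∈ S.pB pt w0 w0' := by
  have : S.hi pt w0' ∈ S.bd (S.pB pt w0 w0') := by rw [h.bd]; exact mem_insert_self _ _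
  exact (mem_bd.1 this).2.1

theorem b'_mem : (S.g (S.lo pt w0)).1 ∈ S.pB pt w0 w0' := by
  have : S.g (S.lo pt w0) ∈ S.bd (S.pB pt w0 w0') := by
    rw [h.bd]; exact mem_insert_of_mem (mem_singleton_self _)
  exact (mem_bd.1 this).2.1

/-- `w0'` is not a-like -/
theorem nA' : ¬ S.VirtA pt w0' := by
  intro hA
  have h1 := h.b_mem
  rw [hi_of_A hA] at h1
  exact h.d0 w0' h.pr.b' h.pr.eqv h1

/-- `w0` is not a-like -/
theorem nB : ¬ S.VirtB pt w0 := by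
  intro hB
  have h1 := h.b'_mem
  rw [lo_of_B hB, g_ccw h.pr.b.glued'] at h1
  exact h.d0 w0 h.pr.b (Eqv.refl _ _) h1

theorem lo_eq : S.lo pt w0 = w0 := lo_of_not_B h.nB
theorem hi_eq : S.hi pt w0' = S.ccw w0' := hi_of_not_A h.nA'
theorem g_hi : S.g (S.hi pt w0') = unrot w0' := by rw [h.hi_eq, g_ccw h.pr.b'.glued']

theorem ps_hi' : S.ps (S.hi pt w0') = S.ps w0' + 1 := by
  rw [h.hi_eq, ps_ccw h.base.lin h.pr.b'.glued']

theorem eqv : S.Eqv (S.hi pt w0') (rot (S.g (S.lo pt w0))) := by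
  have h1 : rot (S.g (S.lo pt w0)) = S.cw (S.lo pt w0) := (cw_of_glued h.pr.b.glued_lo).symm
  rw [h1]
  exact (h.pr.b'.eqv_hi.symm.trans h.pr.eqv.symm).trans (h.pr.b.eqv_lo.trans (S.cw_eqv _))

theorem psl : S.ps (rot (S.g (S.lo pt w0))) < S.ps (S.hi pt w0') := by
  have h1 : rot (S.g (S.lo pt w0)) = S.cw (S.lo pt w0) := (cw_of_glued h.pr.b.glued_lo).symm
  have h2 := ps_of_glued h.base.lin h.pr.b.glued_lo
  rw [h1, h.ps_hi']
  rw [h.lo_eq] at h2 ⊢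
  have := h.pr.lt
  omega

theorem rd : RD S pt (S.pB pt w0 w0') (S.Eqv w0) (S.hi pt w0') (S.g (S.lo pt w0)) where
  base := h.base
  sub := sdiff_subset
  hV _ := ⟨fun hz => (h.pr.b'.eqv_hi.symm.trans h.pr.eqv.symm).trans hz,
    fun hz => (h.pr.eqv.trans h.pr.b'.eqv_hi).trans hz⟩
  bd := h.bd
  eqv := h.eqv
  psl := h.psl
  bl0 := ⟨w0', h.pr.b', h.pr.b'.eqv_hi.symm⟩
  d0 u hu he := h.d0 u hu ((h.pr.eqv.trans h.pr.b'.eqv_hi).trans he)
  dv := h.dv
  de := h.de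
  pAsub := h.pAsub

/-- the triangle outside the region at a stub is the triangle of `w0` or `w0'` -/
theorem out {a : Sd I} (hg : S.g a ≠ a) (h1 : a.1 ∈ S.pB pt w0 w0')
    (h2 : (S.g a).1 ∉ S.pB pt w0 w0') : S.g a = unrot w0' ∨ S.g a = w0 := by
  have h3 : a ∈ S.bd (S.pB pt w0 w0') := mem_bd.2 ⟨hg, h1, h2⟩
  rw [h.bd, mem_insert, mem_singleton] at h3
  rcases h3 with rfl | rfl
  · left; exact h.g_hi
  · right; rw [S.invol, h.lo_eq]

/-- no virtual blade at the corner of the outer triangle opposite to the stub -/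
theorem no_vir_out {a : Sd I} (hg : S.g a ≠ a) (h1 : a.1 ∈ S.pB pt w0 w0')
    (h2 : (S.g a).1 ∉ S.pB pt w0 w0') : ¬ S.Vir pt (unrot (S.g a)) := by
  intro hv
  rcases h.out hg h1 h2 with h3 | h3
  · have h4 := h.base.one _ _ hv.bladeAt h.pr.b' (by rw [h3]; rfl)
    rw [h3, unrot_unrot] at h4
    exact rot_ne _ h4
  · have h4 := h.base.one _ _ hv.bladeAt h.pr.b (by rw [h3]; rfl)
    rw [h3] at h4
    exact unrot_ne _ h4

theorem rhyp : RHyp S pt (S.pB pt w0 w0') where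
  sub := sdiff_subset
  lin := h.base.lin
  b1 _ ha := h.geo.b1 ha
  g1 _ _ ha hb he := h.geo.g1 ha hb he
  sh _ _ h1 h2 h3 h4 := h.geo.sh h1 h2 h3 h4
  three t ht := by
    rcases h.base.types ht with h1 | ⟨c, h1, h2 | h2⟩
    · exact Or.inl h1
    · exact Or.inr (Or.inl ⟨c, h1, h2⟩)
    · exact Or.inr (Or.inr ⟨c, h1, h2⟩)
  s1 := h.s1
  s2 := h.s2
  outP c a b hc hcX hp hab hout hf := by
    by_contra hnf
    have hg : S.g a ≠ a := by
      rcases hab with ⟨rfl, _⟩ | ⟨rfl, _⟩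
      · exact hc.1
      · exact hc.2.1
    have haX : a.1 ∈ S.pB pt w0 w0' := by
      rcases hab with ⟨rfl, _⟩ | ⟨rfl, _⟩
      · exact hcX
      · exact hcX
    exact h.no_vir_out hg haX hout (vir_of_cand (cand_of_pair hc hp hab hf hnf))

theorem op : Op S pt (S.pB pt w0 w0') (S.hi pt w0') (S.g (S.lo pt w0)) where
  geo := h.geo
  H := h.rhyp
  bd := h.bd
  eqv := h.eqv
  psl := h.psl
  nb := by
    rintro ⟨h1, h2⟩
    rw [S.invol] at h2
    have he : S.Eqv (S.hi pt w0') (S.lo pt w0) :=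
      (h.pr.b'.eqv_hi.symm.trans h.pr.eqv.symm).trans h.pr.b.eqv_lo
    have h3 := h.ps_hi'
    have h4 := h.pr.lt
    have h5 := ps_of_glued h.base.lin h1.1
    have h6 := ps_of_glued h.base.lin h2.1
    rw [h.lo_eq] at h6 h2 he
    rcases h.geo.g1 h1 h2 he with h7 | h7 | h7
    · rw [h7] at h3; omega
    · rw [← h7] at h5; omega
    · rw [← h7] at h6; omega
  f1 := h.rd.f1
  f2 := h.rd.f2

end Six

end Pool.Agent.Helper41.AG7
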